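import Mathlib

/-!
# GCNF with permutation does not p-simulate Cutting Planes

We prove an exponential separation. The cedents `F_n` below are the pigeonhole cedents in which
every variable `y_{i,j}` (pigeon `i` sits in hole `j`) is replaced by an implication chain
`y_{i,j}^0 → y_{i,j}^1 → ... → y_{i,j}^{len i j}`; the positive occurrences use the first variable
of the chain and the negative occurrences use the last one, and the lengths `len i j = i n + j` of
the chains are pairwise distinct. Cutting Planes refutes `F_n` in polynomial size. The distinct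
lengths make the chains recognizable, so that the permutation rule is of no help, and every
GCNF+permutation refutation of `F_n` has exponentially many lines.
-/

set_option autoImplicit false

namespace Pool.Agent.Results.MP_612f08_lc.CPSeparation

open Finset

/-! ## The two proof systems -/

/-- A literal over the propositional variables `p_0, p_1, p_2, ...`: the pair `(v, true)` is the
variable `p_v`, the pair `(v, false)` is its negation. -/
abbrev Lit := ℕ × Bool

/-- A clause is a finite set of literals, read as their disjunction. -/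
abbrev Clause := Finset Lit

/-- A cedent is a finite set of clauses, read as their conjunction (a CNF). -/
abbrev Cedent := Finset Clause

/-- Renaming a literal by a permutation `σ` of the variables (the sign is kept). -/
def renLit (σ : Equiv.Perm ℕ) (l : Lit) : Lit := (σ l.1, l.2)

/-- Renaming all variables of a clause. -/
def renClause (σ : Equiv.Perm ℕ) (C : Clause) : Clause := C.image (renLit σ)

/-- Renaming all variables of a cedent. -/
def rename (σ : Equiv.Perm ℕ) (Γ : Cedent) : Cedent := Γ.image (renClause σ)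

/-- One inference of GCNF+permutation. `GStep L Γ` says that the cedent `Γ` is an initial cedent
`{p}, {¬p}`, or follows from cedents in the list `L` by one of the rules:
* structural: from `Γ` infer `Γ ∪ Δ`;
* logical, with auxiliary literal `l`: from `Γ, C_1, ..., C_k` (here `𝒞 = {C_1, ..., C_k}`) and
  `Θ, {l}` infer `Γ ∪ Θ, C_1 ∪ {l}, ..., C_k ∪ {l}`;
* permutation: from `Γ` infer the cedent obtained by a permutation `σ` of the variables. -/
inductive GStep (L : List Cedent) : Cedent → Prop
  | initial (p : ℕ) : GStep L {{(p, true)}, {(p, false)}}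
  | structural (Γ Δ : Cedent) : Γ ∈ L → GStep L (Γ ∪ Δ)
  | logical (l : Lit) (Γ Θ 𝒞 : Cedent) :
      Γ ∪ 𝒞 ∈ L → Θ ∪ {{l}} ∈ L → GStep L (Γ ∪ Θ ∪ 𝒞.image (fun C => C ∪ {l}))
  | permutation (σ : Equiv.Perm ℕ) (Γ : Cedent) : Γ ∈ L → GStep L (rename σ Γ)

/-- `Q` is a GCNF+permutation refutation of `Γ`: a finite sequence of cedents, each of which is
initial or follows from strictly earlier ones by a rule, ending in `Γ`. -/
def IsGRefutation (Γ : Cedent) (Q : List Cedent) : Prop :=
  (∀ (k : ℕ) (h : k < Q.length), GStep (Q.take k) (Q[k])) ∧ Q.getLast? = some Γ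

/-- The size of a cedent: the number of occurrences of literals, plus one for each clause, plus
one. -/
def cedentSize (Γ : Cedent) : ℕ := 1 + ∑ C ∈ Γ, (1 + C.card)

/-- The size of a GCNF+permutation refutation: the sum of the sizes of its cedents. -/
def gSize (Q : List Cedent) : ℕ := (Q.map cedentSize).sum

/-- An integer linear inequality `∑ a_v x_v ≥ b` is represented by the pair `(a, b)`. -/
abbrev Ineq := (ℕ →₀ ℤ) × ℤ

/-- The translation of a clause `C`: the inequality `∑_{p ∈ C} x_p + ∑_{¬p ∈ C} (1 - x_p) ≥ 1`,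
with the constants moved to the right hand side. -/
noncomputable def clauseIneq (C : Clause) : Ineq :=
  (∑ l ∈ C, Finsupp.single l.1 (if l.2 = true then (1 : ℤ) else -1),
    1 - ((C.filter (fun l => l.2 = false)).card : ℤ))

/-- One inference of Cutting Planes from the cedent `Γ`. `CPStep Γ L I` says that `I` is the
translation of a clause of `Γ`, or `x_v ≥ 0`, or `-x_v ≥ -1`, or follows from inequalities in the
list `L` by addition, by multiplication by a positive integer `c`, or by division by a positive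
integer `c` (dividing all coefficients) with rounding up of the right hand side. -/
inductive CPStep (Γ : Cedent) (L : List Ineq) : Ineq → Prop
  | clause (C : Clause) : C ∈ Γ → CPStep Γ L (clauseIneq C)
  | nonneg (v : ℕ) : CPStep Γ L (Finsupp.single v 1, 0)
  | leOne (v : ℕ) : CPStep Γ L (Finsupp.single v (-1), -1)
  | add (I J : Ineq) : I ∈ L → J ∈ L → CPStep Γ L (I.1 + J.1, I.2 + J.2)
  | mul (c : ℤ) (I : Ineq) : 0 < c → I ∈ L → CPStep Γ L (c • I.1, c * I.2)
  | div (c : ℤ) (a : ℕ →₀ ℤ) (b : ℤ) : 0 < c → (c • a, b) ∈ L → CPStep Γ L (a, ⌈(b : ℚ) / c⌉)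

/-- `R` is a Cutting Planes refutation of the cedent `Γ`: a finite sequence of inequalities, each
obtained by `CPStep` from strictly earlier ones, ending in `0 ≥ 1`. -/
def IsCPRefutation (Γ : Cedent) (R : List Ineq) : Prop :=
  (∀ (k : ℕ) (h : k < R.length), CPStep Γ (R.take k) (R[k])) ∧ R.getLast? = some (0, 1)

/-- The size of an inequality: one symbol for each variable occurring in it, plus the binary
lengths of its coefficients and of its right hand side, plus one. -/
def ineqSize (I : Ineq) : ℕ :=
  1 + Nat.size I.2.natAbs + ∑ v ∈ I.1.support, (1 + Nat.size (I.1 v).natAbs)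

/-- The size of a Cutting Planes refutation: the sum of the sizes of its inequalities. -/
def cpSize (R : List Ineq) : ℕ := (R.map ineqSize).sum

/-- GCNF+permutation simulates Cutting Planes with at most polynomial growth of size: there is a
polynomial `p` such that every cedent `Γ` with a Cutting Planes refutation of size `s` has a
GCNF+permutation refutation of size at most `p(s)`. A p-simulation by a polynomial time algorithm
has this property, because such an algorithm writes only polynomially many symbols. -/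
def PolySimulatesCP : Prop :=
  ∃ p : Polynomial ℕ, ∀ (Γ : Cedent) (R : List Ineq), IsCPRefutation Γ R →
    ∃ Q : List Cedent, IsGRefutation Γ Q ∧ gSize Q ≤ p.eval (cpSize R)

/-! ### Semantics -/

/-- truth of a literal under an assignment -/
def Sat (β : ℕ → Prop) (l : Lit) : Prop := if l.2 = true then β l.1 else ¬ β l.1

@[simp] lemma sat_true (β : ℕ → Prop) (x : ℕ) : Sat β (x, true) ↔ β x := by simp [Sat]
@[simp] lemma sat_false (β : ℕ → Prop) (x : ℕ) : Sat β (x, false) ↔ ¬ β x := by simp [Sat]

/-- strong unsatisfiability: the cedent without its empty clause is unsatisfiable -/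
def Uns (S : Cedent) : Prop := ∀ β : ℕ → Prop, ∃ D ∈ S, D ≠ ∅ ∧ ∀ l ∈ D, ¬ Sat β l

lemma sat_renLit (β : ℕ → Prop) (σ : Equiv.Perm ℕ) (l : Lit) :
    Sat β (renLit σ l) ↔ Sat (fun x => β (σ x)) l := Iff.rfl

lemma renLit_injective (σ : Equiv.Perm ℕ) : Function.Injective (renLit σ) := by
  intro a b h
  simp only [renLit, Prod.mk.injEq, EmbeddingLike.apply_eq_iff_eq] at h
  exact Prod.ext h.1 h.2

lemma renClause_injective (σ : Equiv.Perm ℕ) : Function.Injective (renClause σ) :=
  Finset.image_injective (renLit_injective σ)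

lemma mem_renClause {σ : Equiv.Perm ℕ} {C : Clause} {l : Lit} :
    l ∈ renClause σ C ↔ ∃ m ∈ C, renLit σ m = l := by simp [renClause]

lemma mem_rename {σ : Equiv.Perm ℕ} {S : Cedent} {D : Clause} :
    D ∈ rename σ S ↔ ∃ C ∈ S, renClause σ C = D := by simp [rename]

lemma renClause_union (σ : Equiv.Perm ℕ) (C D : Clause) :
    renClause σ (C ∪ D) = renClause σ C ∪ renClause σ D := Finset.image_union _ _

lemma rename_union (σ : Equiv.Perm ℕ) (S T : Cedent) :
    rename σ (S ∪ T) = rename σ S ∪ rename σ T := Finset.image_union _ _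

lemma renClause_singleton (σ : Equiv.Perm ℕ) (l : Lit) :
    renClause σ {l} = {renLit σ l} := by simp [renClause]

lemma rename_singleton (σ : Equiv.Perm ℕ) (C : Clause) :
    rename σ {C} = {renClause σ C} := by simp [rename]

lemma renLit_renLit (σ τ : Equiv.Perm ℕ) (l : Lit) : renLit σ (renLit τ l) = renLit (σ * τ) l := by
  simp [renLit]

lemma renClause_renClause (σ τ : Equiv.Perm ℕ) (C : Clause) :
    renClause σ (renClause τ C) = renClause (σ * τ) C := by
  simp only [renClause, Finset.image_image]
  congr 1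

lemma rename_rename (σ τ : Equiv.Perm ℕ) (S : Cedent) :
    rename σ (rename τ S) = rename (σ * τ) S := by
  simp only [rename, Finset.image_image]
  congr 1
  funext C
  exact renClause_renClause σ τ C

lemma renLit_one (l : Lit) : renLit 1 l = l := by simp [renLit]

lemma renClause_one (C : Clause) : renClause 1 C = C := by
  have : renLit 1 = id := by funext l; simp [renLit_one]
  simp [renClause, this]

lemma rename_one (S : Cedent) : rename 1 S = S := by
  have : renClause 1 = id := by funext l; simp [renClause_one]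
  simp [rename, this]

lemma renClause_eq_empty {σ : Equiv.Perm ℕ} {C : Clause} : renClause σ C = ∅ ↔ C = ∅ := by
  simp [renClause]

lemma uns_rename {S : Cedent} (h : Uns S) (σ : Equiv.Perm ℕ) : Uns (rename σ S) := by
  intro β
  obtain ⟨D, hD, hne, hl⟩ := h (fun x => β (σ x))
  refine ⟨renClause σ D, mem_rename.2 ⟨D, hD, rfl⟩, by simpa [renClause_eq_empty] using hne, ?_⟩
  intro l hl'
  obtain ⟨m, hm, rfl⟩ := mem_renClause.1 hl'
  rw [sat_renLit]
  exact hl m hm

/-- soundness: every line of a derivation is unsatisfiable (even without the empty clause) -/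
lemma uns_step {L : List Cedent} {S : Cedent} (hL : ∀ T ∈ L, Uns T) (h : GStep L S) : Uns S := by
  cases h with
  | initial p =>
    intro β
    by_cases hp : β p
    · exact ⟨{(p, false)}, by simp, by simp, by simpa using hp⟩
    · exact ⟨{(p, true)}, by simp, by simp, by simpa using hp⟩
  | structural Γ Δ h =>
    intro β
    obtain ⟨D, hD, hne, hl⟩ := hL Γ h β
    exact ⟨D, Finset.mem_union_left _ hD, hne, hl⟩
  | logical l Γ Θ 𝒞 h0 h1 =>
    intro β
    by_cases hl : Sat β l
    · obtain ⟨D, hD, hne, hfal⟩ := hL _ h1 β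
      rcases Finset.mem_union.1 hD with hD | hD
      · exact ⟨D, by simp [hD], hne, hfal⟩
      · rw [Finset.mem_singleton] at hD
        subst hD
        exact absurd hl (hfal l (by simp))
    · obtain ⟨D, hD, hne, hfal⟩ := hL _ h0 β
      rcases Finset.mem_union.1 hD with hD | hD
      · exact ⟨D, by simp [hD], hne, hfal⟩
      · refine ⟨D ∪ {l}, ?_, by simp, ?_⟩
        · apply Finset.mem_union_right
          exact Finset.mem_image.2 ⟨D, hD, rfl⟩
        · intro m hm
          rcases Finset.mem_union.1 hm with hm | hm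
          · exact hfal m hm
          · rw [Finset.mem_singleton] at hm
            subst hm
            exact hl
  | permutation σ Γ h => exact uns_rename (hL Γ h) σ

/-- a step stays a step after renaming everything -/
lemma logical_rename (σ : Equiv.Perm ℕ) (l : Lit) (Γ Θ 𝒞 : Cedent) :
    rename σ (Γ ∪ Θ ∪ 𝒞.image (fun C => C ∪ {l})) =
      rename σ Γ ∪ rename σ Θ ∪ (rename σ 𝒞).image (fun C => C ∪ {renLit σ l}) := by
  rw [rename_union, rename_union]
  congr 1
  simp only [rename, Finset.image_image]
  congr 1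
  funext C
  show renClause σ (C ∪ {l}) = renClause σ C ∪ {renLit σ l}
  rw [renClause_union, renClause_singleton]


/-! ### The formula -/

/-- the variable `y_{i,j}^t` -/
def yv (i j t : ℕ) : ℕ := Nat.pair i (Nat.pair j t)

lemma yv_inj {i j t i' j' t' : ℕ} : yv i j t = yv i' j' t' ↔ i = i' ∧ j = j' ∧ t = t' := by
  simp [yv, Nat.pair_eq_pair]

/-- the length of the implication chain of the pair `(i, j)`; all these lengths are distinct -/
def len (n : ℕ) (i : Fin (n + 1)) (j : Fin n) : ℕ := i.val * n + j.val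

lemma len_inj {n : ℕ} {i i' : Fin (n + 1)} {j j' : Fin n} (h : len n i j = len n i' j') :
    i = i' ∧ j = j' := by
  unfold len at h
  have hj := j.2
  have hj' := j'.2
  have h1 : i.val = i'.val := by
    rcases lt_trichotomy i.val i'.val with hlt | heq | hgt
    · exfalso
      have : (i.val + 1) * n ≤ i'.val * n := Nat.mul_le_mul_right _ hlt
      rw [Nat.add_mul] at this
      omega
    · exact heq
    · exfalso
      have : (i'.val + 1) * n ≤ i.val * n := Nat.mul_le_mul_right _ hgt
      rw [Nat.add_mul] at this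
      omega
  have h2 : j.val = j'.val := by
    rw [h1] at h
    omega
  exact ⟨Fin.ext h1, Fin.ext h2⟩

/-- pigeon clause of pigeon `i` -/
def pcl (n : ℕ) (i : Fin (n + 1)) : Clause :=
  Finset.univ.image (fun j : Fin n => (yv i j 0, true))

/-- chain clause: `y_{i,j}^t → y_{i,j}^{t+1}` -/
def lcl (n : ℕ) (i : Fin (n + 1)) (j : Fin n) (t : ℕ) : Clause :=
  {(yv i j t, false), (yv i j (t + 1), true)}

/-- hole clause -/
def hcl (n : ℕ) (i i' : Fin (n + 1)) (j : Fin n) : Clause :=
  {(yv i j (len n i j), false), (yv i' j (len n i' j), false)}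

/-- the cedent `F_n` -/
def Fml (n : ℕ) : Cedent :=
  (Finset.univ.image (pcl n)) ∪
  (Finset.univ.biUnion fun i : Fin (n + 1) => Finset.univ.biUnion fun j : Fin n =>
    (Finset.range (len n i j)).image (lcl n i j)) ∪
  (Finset.univ.biUnion fun j : Fin n => Finset.univ.biUnion fun i : Fin (n + 1) =>
    (Finset.univ.filter (fun i' : Fin (n + 1) => i < i')).image (fun i' => hcl n i i' j))

variable {n : ℕ}

lemma hcl_comm (i i' : Fin (n + 1)) (j : Fin n) : hcl n i i' j = hcl n i' i j := by
  simp [hcl, Finset.pair_comm]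

lemma mem_Fml {D : Clause} : D ∈ Fml n ↔ (∃ i, D = pcl n i) ∨
    (∃ i j t, t < len n i j ∧ D = lcl n i j t) ∨ (∃ i i' j, i ≠ i' ∧ D = hcl n i i' j) := by
  unfold Fml
  simp only [Finset.mem_union, Finset.mem_image, Finset.mem_univ, true_and, Finset.mem_biUnion,
    Finset.mem_range, Finset.mem_filter]
  constructor
  · rintro ((⟨i, rfl⟩ | ⟨i, j, t, ht, rfl⟩) | ⟨j, i, i', hlt, rfl⟩)
    · exact Or.inl ⟨i, rfl⟩
    · exact Or.inr (Or.inl ⟨i, j, t, ht, rfl⟩)
    · exact Or.inr (Or.inr ⟨i, i', j, ne_of_lt hlt, rfl⟩)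
  · rintro (⟨i, rfl⟩ | ⟨i, j, t, ht, rfl⟩ | ⟨i, i', j, hne, rfl⟩)
    · exact Or.inl (Or.inl ⟨i, rfl⟩)
    · exact Or.inl (Or.inr ⟨i, j, t, ht, rfl⟩)
    · rcases lt_or_gt_of_ne hne with h | h
      · exact Or.inr ⟨j, i, i', h, rfl⟩
      · exact Or.inr ⟨j, i', i, h, hcl_comm _ _ _⟩

lemma mem_pcl {i : Fin (n + 1)} {l : Lit} : l ∈ pcl n i ↔ ∃ j : Fin n, l = (yv i j 0, true) := by
  simp [pcl, eq_comm]

lemma mem_lcl {i : Fin (n + 1)} {j : Fin n} {t : ℕ} {l : Lit} :
    l ∈ lcl n i j t ↔ l = (yv i j t, false) ∨ l = (yv i j (t + 1), true) := by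
  simp [lcl]

lemma mem_hcl {i i' : Fin (n + 1)} {j : Fin n} {l : Lit} :
    l ∈ hcl n i i' j ↔ l = (yv i j (len n i j), false) ∨ l = (yv i' j (len n i' j), false) := by
  simp [hcl]

/-- every literal of the formula is over a variable `y_{i,j}^t` -/
lemma lit_form {E : Clause} (hE : E ∈ Fml n) {l : Lit} (hl : l ∈ E) :
    ∃ (i : Fin (n + 1)) (j : Fin n) (t : ℕ), l.1 = yv i j t := by
  rcases mem_Fml.1 hE with ⟨i, rfl⟩ | ⟨i, j, t, ht, rfl⟩ | ⟨i, i', j, hne, rfl⟩
  · obtain ⟨j, rfl⟩ := mem_pcl.1 hl
    exact ⟨i, j, 0, rfl⟩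
  · rcases mem_lcl.1 hl with rfl | rfl
    · exact ⟨i, j, t, rfl⟩
    · exact ⟨i, j, t + 1, rfl⟩
  · rcases mem_hcl.1 hl with rfl | rfl
    · exact ⟨i, j, _, rfl⟩
    · exact ⟨i', j, _, rfl⟩

/-- a clause containing a positive start literal is a pigeon clause -/
lemma cls_start {E : Clause} (hE : E ∈ Fml n) {i : Fin (n + 1)} {j : Fin n}
    (hl : ((yv i j 0, true) : Lit) ∈ E) : E = pcl n i := by
  rcases mem_Fml.1 hE with ⟨i', rfl⟩ | ⟨i', j', t, ht, rfl⟩ | ⟨i', i'', j', hne, rfl⟩
  · obtain ⟨j', h⟩ := mem_pcl.1 hl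
    simp only [Prod.mk.injEq, yv_inj, Fin.val_inj] at h
    rw [h.1.1]
  · rcases mem_lcl.1 hl with h | h <;> simp [yv_inj] at h
  · rcases mem_hcl.1 hl with h | h <;> simp at h

/-- a clause containing a positive non-start literal is a chain clause -/
lemma cls_succ {E : Clause} (hE : E ∈ Fml n) {i : Fin (n + 1)} {j : Fin n} {t : ℕ}
    (hl : ((yv i j (t + 1), true) : Lit) ∈ E) : E = lcl n i j t ∧ t < len n i j := by
  rcases mem_Fml.1 hE with ⟨i', rfl⟩ | ⟨i', j', t', ht, rfl⟩ | ⟨i', i'', j', hne, rfl⟩
  · obtain ⟨j', h⟩ := mem_pcl.1 hl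
    simp [yv_inj] at h
  · rcases mem_lcl.1 hl with h | h
    · simp at h
    · simp only [Prod.mk.injEq, yv_inj, Fin.val_inj, add_left_inj, and_true] at h
      obtain ⟨rfl, rfl, rfl⟩ := h
      exact ⟨rfl, ht⟩
  · rcases mem_hcl.1 hl with h | h <;> simp at h

/-- a clause containing a negative literal is a chain clause or a hole clause -/
lemma cls_neg {E : Clause} (hE : E ∈ Fml n) {i : Fin (n + 1)} {j : Fin n} {t : ℕ}
    (hl : ((yv i j t, false) : Lit) ∈ E) :
    (E = lcl n i j t ∧ t < len n i j) ∨ (t = len n i j ∧ ∃ i', i' ≠ i ∧ E = hcl n i i' j) := by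
  rcases mem_Fml.1 hE with ⟨i', rfl⟩ | ⟨i', j', t', ht, rfl⟩ | ⟨i', i'', j', hne, rfl⟩
  · obtain ⟨j', h⟩ := mem_pcl.1 hl
    simp at h
  · rcases mem_lcl.1 hl with h | h
    · simp only [Prod.mk.injEq, yv_inj, Fin.val_inj, and_true] at h
      obtain ⟨rfl, rfl, rfl⟩ := h
      exact Or.inl ⟨rfl, ht⟩
    · simp at h
  · right
    rcases mem_hcl.1 hl with h | h
    · simp only [Prod.mk.injEq, yv_inj, Fin.val_inj, and_true] at h
      obtain ⟨rfl, rfl, h⟩ := h
      exact ⟨h, i'', hne.symm, rfl⟩
    · simp only [Prod.mk.injEq, yv_inj, Fin.val_inj, and_true] at h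
      obtain ⟨rfl, rfl, h⟩ := h
      exact ⟨h, i', hne, hcl_comm _ _ _⟩

/-! ### Critical assignments -/

/-- A critical matching: a bijection from pigeons to holes plus one extra value `none`. -/
abbrev Mat (n : ℕ) := Fin (n + 1) ≃ Option (Fin n)

/-- the truth assignment of a critical matching -/
def val (A : Mat n) (x : ℕ) : Prop :=
  ∃ (i : Fin (n + 1)) (j : Fin n) (t : ℕ), t ≤ len n i j ∧ x = yv i j t ∧ A i = some j

lemma val_yv {A : Mat n} {i : Fin (n + 1)} {j : Fin n} {t : ℕ} :
    val A (yv i j t) ↔ t ≤ len n i j ∧ A i = some j := by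
  constructor
  · rintro ⟨i', j', t', ht, h, hA⟩
    simp only [yv_inj, Fin.val_inj] at h
    obtain ⟨rfl, rfl, rfl⟩ := h
    exact ⟨ht, hA⟩
  · intro h
    exact ⟨i, j, t, h.1, rfl, h.2⟩

/-- the only clauses of the formula falsified by a critical matching are the pigeon clauses of
the unmatched pigeon -/
lemma falsified {A : Mat n} {E : Clause} (hE : E ∈ Fml n) (h : ∀ l ∈ E, ¬ Sat (val A) l) :
    ∃ i, A i = none ∧ E = pcl n i := by
  rcases mem_Fml.1 hE with ⟨i, rfl⟩ | ⟨i, j, t, ht, rfl⟩ | ⟨i, i', j, hne, rfl⟩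
  · refine ⟨i, ?_, rfl⟩
    by_contra hc
    obtain ⟨j, hj⟩ := Option.ne_none_iff_exists'.1 hc
    exact h (yv i j 0, true) (mem_pcl.2 ⟨j, rfl⟩) (by simp [val_yv, hj])
  · exfalso
    have h1 := h (yv i j t, false) (mem_lcl.2 (Or.inl rfl))
    have h2 := h (yv i j (t + 1), true) (mem_lcl.2 (Or.inr rfl))
    simp only [sat_false, not_not, val_yv, sat_true] at h1 h2
    exact h2 ⟨ht, h1.2⟩
  · exfalso
    have h1 := h _ (mem_hcl.2 (Or.inl rfl))
    have h2 := h _ (mem_hcl.2 (Or.inr rfl))
    simp only [sat_false, not_not, val_yv] at h1 h2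
    exact hne (A.injective (h1.2.trans h2.2.symm))

/-- `D` is justified by the assignment `β`: it arises from a clause of the formula by deleting
falsified literals, or it is a satisfied unit clause -/
def Just (n : ℕ) (β : ℕ → Prop) (D : Clause) : Prop :=
  (∃ E ∈ Fml n, D ⊆ E ∧ ∀ l ∈ E, l ∉ D → ¬ Sat β l) ∨ (∃ l, D = {l} ∧ Sat β l)

/-- every nonempty clause of `S` is justified by the critical matching `A` -/
def Cons (A : Mat n) (S : Cedent) : Prop := ∀ D ∈ S, D ≠ ∅ → Just n (val A) D

lemma cons_mono {A : Mat n} {S T : Cedent} (h : Cons A T) (hST : S ⊆ T) : Cons A S :=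
  fun D hD hne => h D (hST hD) hne

/-- following the assignment through the logical rule -/
lemma cons_left {A : Mat n} {Γ Θ 𝒞 : Cedent} {l : Lit}
    (h : Cons A (Γ ∪ Θ ∪ 𝒞.image (fun C => C ∪ {l}))) (hl : ¬ Sat (val A) l) :
    Cons A (Γ ∪ 𝒞) := by
  intro D hD hne
  rcases Finset.mem_union.1 hD with hD | hD
  · exact h D (by simp [hD]) hne
  · have hmem : D ∪ {l} ∈ (Γ ∪ Θ ∪ 𝒞.image (fun C => C ∪ {l})) :=
      Finset.mem_union_right _ (Finset.mem_image.2 ⟨D, hD, rfl⟩)
    rcases h (D ∪ {l}) hmem (by simp) with ⟨E, hE, hsub, hfal⟩ | ⟨m, hm, hsat⟩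
    · left
      refine ⟨E, hE, fun x hx => hsub (Finset.mem_union_left _ hx), ?_⟩
      intro x hx hxD
      by_cases hxl : x = l
      · subst hxl; exact hl
      · exact hfal x hx (by simp [hxD, hxl])
    · exfalso
      have : l ∈ ({m} : Clause) := by rw [← hm]; simp
      rw [Finset.mem_singleton] at this
      subst this
      exact hl hsat

lemma cons_right {A : Mat n} {Γ Θ 𝒞 : Cedent} {l : Lit}
    (h : Cons A (Γ ∪ Θ ∪ 𝒞.image (fun C => C ∪ {l}))) (hl : Sat (val A) l) :
    Cons A (Θ ∪ {{l}}) := by
  intro D hD hne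
  rcases Finset.mem_union.1 hD with hD | hD
  · exact h D (by simp [hD]) hne
  · rw [Finset.mem_singleton] at hD
    exact Or.inr ⟨l, hD, hl⟩

/-- at an initial cedent the unmatched pigeon is determined -/
lemma cons_initial {A B : Mat n} {x : ℕ} (hA : Cons A {{(x, true)}, {(x, false)}})
    (hB : Cons B {{(x, true)}, {(x, false)}}) : A.symm none = B.symm none := by
  have key : ∀ A : Mat n, Cons A {{(x, true)}, {(x, false)}} →
      ∃ (i : Fin (n + 1)) (j : Fin n), A i = none ∧ x = yv i j 0 := by
    intro A hA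
    by_cases hx : val A x
    · exfalso
      rcases hA {(x, false)} (by simp) (by simp) with ⟨E, hE, hsub, hfal⟩ | ⟨l, hl, hsat⟩
      · have hall : ∀ l ∈ E, ¬ Sat (val A) l := by
          intro l hl
          by_cases h : l ∈ ({(x, false)} : Clause)
          · rw [Finset.mem_singleton] at h
            subst h
            simpa using hx
          · exact hfal l hl h
        obtain ⟨i, _, rfl⟩ := falsified hE hall
        have : ((x, false) : Lit) ∈ pcl n i := hsub (by simp)
        obtain ⟨j, hj⟩ := mem_pcl.1 this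
        simp at hj
      · rw [Finset.singleton_inj] at hl
        subst hl
        simp at hsat
        exact hsat hx
    · rcases hA {(x, true)} (by simp) (by simp) with ⟨E, hE, hsub, hfal⟩ | ⟨l, hl, hsat⟩
      · have hall : ∀ l ∈ E, ¬ Sat (val A) l := by
          intro l hl
          by_cases h : l ∈ ({(x, true)} : Clause)
          · rw [Finset.mem_singleton] at h
            subst h
            simpa using hx
          · exact hfal l hl h
        obtain ⟨i, hi, rfl⟩ := falsified hE hall
        have : ((x, true) : Lit) ∈ pcl n i := hsub (by simp)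
        obtain ⟨j, hj⟩ := mem_pcl.1 this
        simp only [Prod.mk.injEq, and_true] at hj
        exact ⟨i, j, hi, hj⟩
      · exfalso
        rw [Finset.singleton_inj] at hl
        subst hl
        simp at hsat
        exact hx hsat
  obtain ⟨i, j, hi, hx⟩ := key A hA
  obtain ⟨i', j', hi', hx'⟩ := key B hB
  rw [hx] at hx'
  simp only [yv_inj, Fin.val_inj] at hx'
  have h1 : A.symm none = i := (Equiv.symm_apply_eq A).2 hi.symm
  have h2 : B.symm none = i' := (Equiv.symm_apply_eq B).2 hi'.symm
  rw [h1, h2, hx'.1]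

/-! ### Visibility -/

/-- units: pigeons with a positive start unit clause -/
def UU (n : ℕ) (S : Cedent) : Set (Fin (n + 1)) := {u | ∃ j : Fin n, ({(yv u j 0, true)} : Clause) ∈ S}

/-- the holes directly allowed for pigeon `i` by `S` -/
def JJ (n : ℕ) (S : Cedent) (i : Fin (n + 1)) : Set (Fin n) :=
  {j | (∀ D ∈ S, D ≠ ∅ → D ⊆ pcl n i → ((yv i j 0, true) : Lit) ∈ D) ∧
    ∀ t ≤ len n i j, ({(yv i j t, false)} : Clause) ∉ S}

/-- the modification lemma -/
lemma modif {A : Mat n} {S : Cedent} (hA : Cons A S) {D : Clause} (hD : D ∈ S) (hne : D ≠ ∅)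
    {β : ℕ → Prop} (hβ : ∀ l ∈ D, ¬ Sat β l) :
    (∃ i, A i = none ∧ D ⊆ pcl n i) ∨
    (∃ l ∈ D, Sat (val A) l ∧ ¬ Sat β l ∧
      (D = {l} ∨ ∃ E ∈ Fml n, D ⊆ E ∧ ∀ m ∈ E, m ∉ D → ¬ Sat (val A) m)) := by
  rcases hA D hD hne with ⟨E, hE, hsub, hfal⟩ | ⟨l, hl, hsat⟩
  · by_cases hall : ∀ l ∈ D, ¬ Sat (val A) l
    · left
      obtain ⟨i, hi, rfl⟩ := falsified hE (fun l hl => by
        by_cases h : l ∈ D
        · exact hall l h
        · exact hfal l hl h)
      exact ⟨i, hi, hsub⟩
    · right
      push Not at hall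
      obtain ⟨l, hl, hsat⟩ := hall
      exact ⟨l, hl, hsat, hβ l hl, Or.inr ⟨E, hE, hsub, hfal⟩⟩
  · right
    subst hl
    exact ⟨l, by simp, hsat, hβ l (by simp), Or.inl rfl⟩

/-- there is a version of the pigeon clause of the unmatched pigeon -/
lemma exists_version {A : Mat n} {S : Cedent} (hA : Cons A S) (hS : Uns S) {i : Fin (n + 1)}
    (hi : A i = none) : ∃ D ∈ S, D ≠ ∅ ∧ D ⊆ pcl n i := by
  obtain ⟨D, hD, hne, hfal⟩ := hS (val A)
  rcases modif hA hD hne hfal with ⟨i', hi', hsub⟩ | ⟨l, hl, h1, h2, _⟩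
  · have : i' = i := A.injective (hi'.trans hi.symm)
    subst this
    exact ⟨D, hD, hne, hsub⟩
  · exact absurd h1 h2

/-- if the chain `(i, j)` is raised up to time `t` then only the link `t` can be violated:
general version, for a chain which is present in all versions of the pigeon clause and has no
negative unit up to `t` -/
lemma link_mem {A : Mat n} {S : Cedent} (hA : Cons A S) (hS : Uns S) {i : Fin (n + 1)}
    (hi : A i = none) {j : Fin n}
    (hstart : ∀ D ∈ S, D ≠ ∅ → D ⊆ pcl n i → ((yv i j 0, true) : Lit) ∈ D) {t : ℕ}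
    (ht : t < len n i j) (hneg : ∀ s ≤ t, ({(yv i j s, false)} : Clause) ∉ S) :
    lcl n i j t ∈ S := by
  obtain ⟨D, hD, hne, hfal⟩ := hS (fun x => val A x ∨ ∃ s ≤ t, x = yv i j s)
  rcases modif hA hD hne hfal with ⟨i', hi', hsub⟩ | ⟨l, hl, h1, h2, h3⟩
  · exfalso
    have : i' = i := A.injective (hi'.trans hi.symm)
    subst this
    have h := hfal _ (hstart D hD hne hsub)
    simp only [sat_true, not_or] at h
    exact h.2 ⟨0, Nat.zero_le _, rfl⟩
  · obtain ⟨x, b⟩ := l
    cases b with
    | true =>
      simp only [sat_true, not_or] at h1 h2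
      exact absurd h1 h2.1
    | false =>
      simp only [sat_false, not_not] at h1 h2
      rcases h2 with h2 | ⟨s, hs, rfl⟩
      · exact absurd h2 h1
      rcases h3 with h3 | ⟨E, hE, hsub, _⟩
      · exact absurd (h3 ▸ hD) (hneg s hs)
      rcases cls_neg hE (hsub hl) with ⟨rfl, hlt⟩ | ⟨hs', _⟩
      · have hmem : ((yv i j (s + 1), true) : Lit) ∈ D := by
          by_contra hc
          apply hneg s hs
          have : D = {((yv i j s, false) : Lit)} := by
            apply Finset.eq_singleton_iff_unique_mem.2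
            refine ⟨hl, ?_⟩
            intro m hm
            rcases mem_lcl.1 (hsub hm) with rfl | rfl
            · rfl
            · exact absurd hm hc
          exact this ▸ hD
        have hDE : D = lcl n i j s := by
          apply Finset.Subset.antisymm hsub
          intro m hm
          rcases mem_lcl.1 hm with rfl | rfl
          · exact hl
          · exact hmem
        have h := hfal _ hmem
        simp only [sat_true, not_or, not_exists, not_and] at h
        have hst : ¬ (s + 1 ≤ t) := fun hc => h.2 (s + 1) hc rfl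
        have : s = t := by omega
        subst this
        exact hDE ▸ hD
      · omega

lemma hole_mem {A : Mat n} {S : Cedent} (hA : Cons A S) (hS : Uns S) {i : Fin (n + 1)}
    (hi : A i = none) {j : Fin n} (hj : j ∈ JJ n S i) {u : Fin (n + 1)} (hu : A u = some j) :
    hcl n i u j ∈ S := by
  obtain ⟨D, hD, hne, hfal⟩ := hS (fun x => val A x ∨ ∃ s ≤ len n i j, x = yv i j s)
  rcases modif hA hD hne hfal with ⟨i', hi', hsub⟩ | ⟨l, hl, h1, h2, h3⟩
  · exfalso
    have : i' = i := A.injective (hi'.trans hi.symm)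
    subst this
    have h := hfal _ (hj.1 D hD hne hsub)
    simp only [sat_true, not_or] at h
    exact h.2 ⟨0, Nat.zero_le _, rfl⟩
  · obtain ⟨x, b⟩ := l
    cases b with
    | true =>
      simp only [sat_true, not_or] at h1 h2
      exact absurd h1 h2.1
    | false =>
      simp only [sat_false, not_not] at h1 h2
      rcases h2 with h2 | ⟨s, hsl, rfl⟩
      · exact absurd h2 h1
      rcases h3 with h3 | ⟨E, hE, hsub, _⟩
      · exact absurd (h3 ▸ hD) (hj.2 s hsl)
      rcases cls_neg hE (hsub hl) with ⟨rfl, hlt⟩ | ⟨hs', k, hk, rfl⟩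
      · exfalso
        have hmem : ((yv i j (s + 1), true) : Lit) ∈ D := by
          by_contra hc
          apply hj.2 s hsl
          have : D = {((yv i j s, false) : Lit)} := by
            apply Finset.eq_singleton_iff_unique_mem.2
            refine ⟨hl, ?_⟩
            intro m hm
            rcases mem_lcl.1 (hsub hm) with rfl | rfl
            · rfl
            · exact absurd hm hc
          exact this ▸ hD
        have h := hfal _ hmem
        simp only [sat_true, not_or, not_exists, not_and] at h
        exact h.2 (s + 1) hlt rfl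
      · have hmem : ((yv k j (len n k j), false) : Lit) ∈ D := by
          by_contra hc
          apply hj.2 s hsl
          have : D = {((yv i j s, false) : Lit)} := by
            apply Finset.eq_singleton_iff_unique_mem.2
            refine ⟨hl, ?_⟩
            intro m hm
            rcases mem_hcl.1 (hsub hm) with rfl | rfl
            · rw [hs']
            · exact absurd hm hc
          exact this ▸ hD
        have h := hfal _ hmem
        simp only [sat_false, not_not] at h
        rcases h with h | ⟨s', _, h⟩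
        · rw [val_yv] at h
          have : k = u := A.injective (h.2.trans hu.symm)
          subst this
          have hDE : D = hcl n i k j := by
            apply Finset.Subset.antisymm hsub
            intro m hm
            rcases mem_hcl.1 hm with rfl | rfl
            · rw [← hs']; exact hl
            · exact hmem
          exact hDE ▸ hD
        · simp only [yv_inj, Fin.val_inj] at h
          exact absurd h.1 hk

/-! ### Renamings cannot move intact chains -/

/-- a justified clause with two distinct literals lies in a clause of the formula -/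
lemma just_two {β : ℕ → Prop} {D : Clause} (h : Just n β D) {l m : Lit} (hl : l ∈ D) (hm : m ∈ D)
    (hlm : l ≠ m) : ∃ E ∈ Fml n, D ⊆ E ∧ ∀ x ∈ E, x ∉ D → ¬ Sat β x := by
  rcases h with h | ⟨x, rfl, _⟩
  · exact h
  · rw [Finset.mem_singleton] at hl hm
    exact absurd (hl.trans hm.symm) hlm

lemma renClause_lcl (g : Equiv.Perm ℕ) (i : Fin (n + 1)) (j : Fin n) (t : ℕ) :
    renClause g (lcl n i j t) = {(g (yv i j t), false), (g (yv i j (t + 1)), true)} := by
  simp [renClause, lcl, renLit, Finset.image_insert]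

lemma renClause_hcl (g : Equiv.Perm ℕ) (i i' : Fin (n + 1)) (j : Fin n) :
    renClause g (hcl n i i' j) =
      {(g (yv i j (len n i j)), false), (g (yv i' j (len n i' j)), false)} := by
  simp [renClause, hcl, renLit, Finset.image_insert]

/-- image of a link, forward -/
lemma ren_link {A : Mat n} {S : Cedent} {g : Equiv.Perm ℕ} (hA : Cons A (rename g S))
    {i : Fin (n + 1)} {j : Fin n} {t : ℕ} (hlink : lcl n i j t ∈ S)
    {k : Fin (n + 1)} {j' : Fin n} {s : ℕ} (hg : g (yv i j t) = yv k j' s) :
    s < len n k j' ∧ g (yv i j (t + 1)) = yv k j' (s + 1) := by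
  have hmem : renClause g (lcl n i j t) ∈ rename g S := mem_rename.2 ⟨_, hlink, rfl⟩
  rw [renClause_lcl, hg] at hmem
  obtain ⟨E, hE, hsub, _⟩ := just_two (hA _ hmem (by simp)) (l := (yv k j' s, false))
    (m := (g (yv i j (t + 1)), true)) (by simp) (by simp) (by simp)
  rcases cls_neg hE (hsub (by simp : ((yv k j' s, false) : Lit) ∈ _)) with ⟨rfl, hlt⟩ | ⟨_, k', _, rfl⟩
  · refine ⟨hlt, ?_⟩
    have : ((g (yv i j (t + 1)), true) : Lit) ∈ lcl n k j' s := hsub (by simp)
    rcases mem_lcl.1 this with h | h
    · simp at h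
    · simpa using h
  · exfalso
    have : ((g (yv i j (t + 1)), true) : Lit) ∈ hcl n k k' j' := hsub (by simp)
    rcases mem_hcl.1 this with h | h <;> simp at h

/-- image of a link, backward -/
lemma ren_link_back {A : Mat n} {S : Cedent} {g : Equiv.Perm ℕ} (hA : Cons A (rename g S))
    {i : Fin (n + 1)} {j : Fin n} {t : ℕ} (hlink : lcl n i j t ∈ S)
    {k : Fin (n + 1)} {j' : Fin n} {s : ℕ} (hg : g (yv i j (t + 1)) = yv k j' s) :
    ∃ r, s = r + 1 ∧ r < len n k j' ∧ g (yv i j t) = yv k j' r := by
  have hmem : renClause g (lcl n i j t) ∈ rename g S := mem_rename.2 ⟨_, hlink, rfl⟩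
  rw [renClause_lcl, hg] at hmem
  obtain ⟨E, hE, hsub, _⟩ := just_two (hA _ hmem (by simp)) (l := (g (yv i j t), false))
    (m := (yv k j' s, true)) (by simp) (by simp) (by simp)
  cases s with
  | zero =>
    exfalso
    have h1 := cls_start hE (hsub (by simp : ((yv k j' 0, true) : Lit) ∈ _))
    subst h1
    have : ((g (yv i j t), false) : Lit) ∈ pcl n k := hsub (by simp)
    obtain ⟨_, h⟩ := mem_pcl.1 this
    simp at h
  | succ r =>
    obtain ⟨rfl, hr⟩ := cls_succ hE (hsub (by simp : ((yv k j' (r + 1), true) : Lit) ∈ _))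
    refine ⟨r, rfl, hr, ?_⟩
    have : ((g (yv i j t), false) : Lit) ∈ lcl n k j' r := hsub (by simp)
    rcases mem_lcl.1 this with h | h
    · simpa using h
    · simp at h

/-- image of a hole clause -/
lemma ren_hole {A : Mat n} {S : Cedent} {g : Equiv.Perm ℕ} (hA : Cons A (rename g S))
    {i i' : Fin (n + 1)} (hii : i ≠ i') {j : Fin n} (hh : hcl n i i' j ∈ S)
    {k : Fin (n + 1)} {j' : Fin n} {s : ℕ} (hg : g (yv i j (len n i j)) = yv k j' s) :
    s = len n k j' ∧ ∃ k', k' ≠ k ∧ g (yv i' j (len n i' j)) = yv k' j' (len n k' j') := by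
  have hmem : renClause g (hcl n i i' j) ∈ rename g S := mem_rename.2 ⟨_, hh, rfl⟩
  rw [renClause_hcl, hg] at hmem
  have hne : g (yv i' j (len n i' j)) ≠ yv k j' s := by
    rw [← hg]
    intro h
    have := g.injective h
    simp only [yv_inj, Fin.val_inj] at this
    exact hii this.1.symm
  obtain ⟨E, hE, hsub, _⟩ := just_two (hA _ hmem (by simp)) (l := (yv k j' s, false))
    (m := (g (yv i' j (len n i' j)), false)) (by simp) (by simp)
    (by simp only [ne_eq, Prod.mk.injEq, and_true]; exact fun h => hne h.symm)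
  rcases cls_neg hE (hsub (by simp : ((yv k j' s, false) : Lit) ∈ _)) with ⟨rfl, hlt⟩ | ⟨hs, k', hk', rfl⟩
  · exfalso
    have : ((g (yv i' j (len n i' j)), false) : Lit) ∈ lcl n k j' s := hsub (by simp)
    rcases mem_lcl.1 this with h | h
    · simp only [Prod.mk.injEq, and_true] at h
      exact hne h
    · simp at h
  · refine ⟨hs, k', hk', ?_⟩
    have : ((g (yv i' j (len n i' j)), false) : Lit) ∈ hcl n k k' j' := hsub (by simp)
    rcases mem_hcl.1 this with h | h
    · simp only [Prod.mk.injEq, and_true] at h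
      rw [hs] at hne
      exact absurd h hne
    · simpa using h

/-- image of a version of a pigeon clause with two literals -/
lemma ren_pcl {A : Mat n} {S : Cedent} {g : Equiv.Perm ℕ} (hA : Cons A (rename g S))
    {i : Fin (n + 1)} {D : Clause} (hD : D ∈ S) (hsub : D ⊆ pcl n i) {l m : Lit} (hl : l ∈ D)
    (hm : m ∈ D) (hlm : l ≠ m) :
    ∃ k, renClause g D ⊆ pcl n k ∧ ∀ x ∈ pcl n k, x ∉ renClause g D → ¬ Sat (val A) x := by
  have hmem : renClause g D ∈ rename g S := mem_rename.2 ⟨_, hD, rfl⟩
  have hl' : renLit g l ∈ renClause g D := mem_renClause.2 ⟨l, hl, rfl⟩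
  have hm' : renLit g m ∈ renClause g D := mem_renClause.2 ⟨m, hm, rfl⟩
  have hne : renLit g l ≠ renLit g m := fun h => hlm (renLit_injective g h)
  obtain ⟨E, hE, hsubE, hfal⟩ := just_two (hA _ hmem (by
    intro h0; rw [h0] at hl'; simp at hl')) hl' hm' hne
  have pos : ∀ x ∈ renClause g D, x.2 = true := by
    intro x hx
    obtain ⟨y, hy, rfl⟩ := mem_renClause.1 hx
    obtain ⟨j, rfl⟩ := mem_pcl.1 (hsub hy)
    rfl
  rcases mem_Fml.1 hE with ⟨k, rfl⟩ | ⟨k, j, t, ht, rfl⟩ | ⟨k, k', j, hne', rfl⟩
  · exact ⟨k, hsubE, hfal⟩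
  · exfalso
    have h1 : renLit g l = (yv k j (t + 1), true) := by
      rcases mem_lcl.1 (hsubE hl') with h | h
      · have := pos _ hl'
        rw [h] at this
        simp at this
      · exact h
    have h2 : renLit g m = (yv k j (t + 1), true) := by
      rcases mem_lcl.1 (hsubE hm') with h | h
      · have := pos _ hm'
        rw [h] at this
        simp at this
      · exact h
    exact hne (h1.trans h2.symm)
  · exfalso
    have := pos _ hl'
    rcases mem_hcl.1 (hsubE hl') with h | h <;> rw [h] at this <;> simp at this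

/-- a negative unit excludes the pair -/
lemma neg_unit {A : Mat n} {S : Cedent} (hA : Cons A S) {i : Fin (n + 1)} {j : Fin n} {t : ℕ}
    (ht : t ≤ len n i j) (h : ({((yv i j t, false) : Lit)} : Clause) ∈ S) : A i ≠ some j := by
  intro hij
  rcases hA _ h (by simp) with ⟨E, hE, hsub, hfal⟩ | ⟨l, hl, hsat⟩
  · rcases cls_neg hE (hsub (by simp : ((yv i j t, false) : Lit) ∈ _)) with
      ⟨rfl, hlt⟩ | ⟨ht, k, hk, rfl⟩
    · have := hfal (yv i j (t + 1), true) (mem_lcl.2 (Or.inr rfl)) (by simp)
      simp only [sat_true, val_yv] at this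
      exact this ⟨hlt, hij⟩
    · have := hfal (yv k j (len n k j), false) (mem_hcl.2 (Or.inr rfl)) (by
        simp only [Finset.mem_singleton, Prod.mk.injEq, yv_inj, Fin.val_inj, and_true, not_and]
        intro h
        exact absurd h hk)
      simp only [sat_false, not_not, val_yv] at this
      exact hk (A.injective (this.2.trans hij.symm))
  · rw [Finset.singleton_inj] at hl
    subst hl
    simp only [sat_false, val_yv] at hsat
    exact hsat ⟨ht, hij⟩

/-- a version of the pigeon clause of a non-unit pigeon has a second literal -/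
lemma second_lit {S : Cedent} {i : Fin (n + 1)} (hU : i ∉ UU n S) {D : Clause} (hD : D ∈ S)
    (j : Fin n) (hj : ((yv i j 0, true) : Lit) ∈ D) :
    ∃ m ∈ D, m ≠ ((yv i j 0, true) : Lit) := by
  by_contra hc
  push Not at hc
  apply hU
  refine ⟨j, ?_⟩
  have : D = {((yv i j 0, true) : Lit)} := Finset.eq_singleton_iff_unique_mem.2 ⟨hj, hc⟩
  exact this ▸ hD

/-- the chains of allowed holes are fixed by all renamings -/
lemma fix_chain {A A' : Mat n} {S : Cedent} {g : Equiv.Perm ℕ} (hA : Cons A S) (hS : Uns S)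
    {i : Fin (n + 1)} (hi : A i = none) (hU : i ∉ UU n S) {j : Fin n} (hj : j ∈ JJ n S i)
    (hA' : Cons A' (rename g S)) : ∀ t ≤ len n i j, g (yv i j t) = yv i j t := by
  obtain ⟨D, hD, hne, hsub⟩ := exists_version hA hS hi
  have hjD := hj.1 D hD hne hsub
  obtain ⟨m, hm, hml⟩ := second_lit hU hD j hjD
  obtain ⟨k, hk, _⟩ := ren_pcl hA' hD hsub hjD hm (Ne.symm hml)
  have h0 : ((g (yv i j 0), true) : Lit) ∈ pcl n k := hk (mem_renClause.2 ⟨_, hjD, rfl⟩)
  obtain ⟨j', hj'⟩ := mem_pcl.1 h0
  simp only [Prod.mk.injEq, and_true] at hj'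
  have hind : ∀ t ≤ len n i j, g (yv i j t) = yv k j' t := by
    intro t
    induction t with
    | zero => intro _; exact hj'
    | succ t ih =>
      intro ht
      have hlink := link_mem hA hS hi hj.1 (t := t) (by omega) (fun s hs => hj.2 s (by omega))
      exact (ren_link hA' hlink (ih (by omega))).2
  have hu : A (A.symm (some j)) = some j := A.apply_symm_apply _
  have hne' : i ≠ A.symm (some j) := by
    intro h
    rw [← h, hi] at hu
    simp at hu
  have hhole := hole_mem hA hS hi hj hu
  obtain ⟨hs, _⟩ := ren_hole hA' hne' hhole (hind _ le_rfl)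
  obtain ⟨rfl, rfl⟩ := len_inj hs
  exact hind

/-- every consistent critical matching, for every renaming, sends the pigeon `i` to an allowed
hole or leaves it unmatched -/
lemma excl {A A' : Mat n} {S : Cedent} {g : Equiv.Perm ℕ} (hA : Cons A S) (hS : Uns S)
    {i : Fin (n + 1)} (hi : A i = none) (hU : i ∉ UU n S) {j₀ : Fin n} (hj₀ : j₀ ∈ JJ n S i)
    (hA' : Cons A' (rename g S)) {j : Fin n} (hj : A' i = some j) : j ∈ JJ n S i := by
  by_contra hjJ
  -- every version of the pigeon clause contains the preimage of the start of the chain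
  have key : ∀ D ∈ S, D ≠ ∅ → D ⊆ pcl n i → ((g.symm (yv i j 0), true) : Lit) ∈ D := by
    intro D hD hne hsub
    have hjD := hj₀.1 D hD hne hsub
    obtain ⟨m, hm, hml⟩ := second_lit hU hD j₀ hjD
    obtain ⟨k, hk, hfal⟩ := ren_pcl hA' hD hsub hjD hm (Ne.symm hml)
    have h0 : ((g (yv i j₀ 0), true) : Lit) ∈ pcl n k := hk (mem_renClause.2 ⟨_, hjD, rfl⟩)
    rw [fix_chain hA hS hi hU hj₀ hA' 0 (Nat.zero_le _)] at h0
    obtain ⟨j', hj'⟩ := mem_pcl.1 h0
    simp only [Prod.mk.injEq, and_true, yv_inj, Fin.val_inj] at hj'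
    obtain ⟨hik, _⟩ := hj'
    subst hik
    by_contra hc
    have h1 := hfal (yv i j 0, true) (mem_pcl.2 ⟨j, rfl⟩) (by
      intro h
      obtain ⟨y, hy, hyy⟩ := mem_renClause.1 h
      apply hc
      obtain ⟨x, b⟩ := y
      simp only [renLit, Prod.mk.injEq] at hyy
      obtain ⟨h1, rfl⟩ := hyy
      rw [← h1, Equiv.symm_apply_apply]
      exact hy)
    simp only [sat_true, val_yv] at h1
    exact h1 ⟨Nat.zero_le _, hj⟩
  obtain ⟨D, hD, hne, hsub⟩ := exists_version hA hS hi
  obtain ⟨j₁, hj₁⟩ := mem_pcl.1 (hsub (key D hD hne hsub))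
  simp only [Prod.mk.injEq, and_true] at hj₁
  rw [hj₁] at key
  have hg0 : g (yv i j₁ 0) = yv i j 0 := by rw [← hj₁, Equiv.apply_symm_apply]
  -- `j₁` is not allowed
  have hj₁J : j₁ ∉ JJ n S i := by
    intro h
    have := fix_chain hA hS hi hU h hA' 0 (Nat.zero_le _)
    rw [hg0] at this
    simp only [yv_inj, Fin.val_inj] at this
    rw [this.2.1] at hjJ
    exact hjJ h
  have hex : ∃ t, t ≤ len n i j₁ ∧ ({(yv i j₁ t, false)} : Clause) ∈ S := by
    by_contra hc
    push Not at hc
    exact hj₁J ⟨key, hc⟩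
  classical
  have hmin := Nat.find_spec hex
  set t := Nat.find hex with ht
  have hlt : ∀ s < t, ({(yv i j₁ s, false)} : Clause) ∉ S := fun s hs hc =>
    Nat.find_min hex hs ⟨by omega, hc⟩
  have hchain : ∀ s ≤ t, g (yv i j₁ s) = yv i j s := by
    intro s
    induction s with
    | zero => intro _; exact hg0
    | succ s ih =>
      intro hs
      have hlink := link_mem hA hS hi key (t := s) (by omega) (fun r hr => hlt r (by omega))
      exact (ren_link hA' hlink (ih (by omega))).2
  have himg : ({((yv i j t, false) : Lit)} : Clause) ∈ rename g S := by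
    refine mem_rename.2 ⟨_, hmin.2, ?_⟩
    rw [renClause_singleton]
    simp [renLit, hchain t le_rfl]
  have htl : t ≤ len n i j := by
    rcases Nat.eq_zero_or_pos t with h0 | h0
    · omega
    · have hlink := link_mem hA hS hi key (t := t - 1) (by omega) (fun r hr => hlt r (by omega))
      have := (ren_link hA' hlink (hchain (t - 1) (by omega))).1
      omega
  exact neg_unit hA' htl himg hj

/-- If pigeon `u` is visibly sent to the allowed hole `j` of the unmatched pigeon `i`, then for
every renaming there is a single pigeon which is unmatched in all consistent critical matchings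
sending `i` to `j`. -/
lemma forced {A : Mat n} {S : Cedent} {g : Equiv.Perm ℕ} (hA : Cons A S) (hS : Uns S)
    {i : Fin (n + 1)} (hi : A i = none) (hU : i ∉ UU n S) {j : Fin n} (hj : j ∈ JJ n S i)
    {u : Fin (n + 1)} (hu : A u = some j) {t₀ : ℕ}
    (hunit : ({(yv u j t₀, true)} : Clause) ∈ S) :
    ∃ k, ∀ A' : Mat n, Cons A' (rename g S) → A' i = some j → A' k = none := by
  classical
  have hiu : i ≠ u := by
    rintro rfl
    rw [hi] at hu
    simp at hu
  -- positive units of the chain have index at most `len`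
  have hle : ∀ t, ({((yv u j t, true) : Lit)} : Clause) ∈ S → t ≤ len n u j := by
    intro t ht
    rcases hA _ ht (by simp) with ⟨E, hE, hsub, _⟩ | ⟨l, hl, hsat⟩
    · cases t with
      | zero => exact Nat.zero_le _
      | succ t => exact (cls_succ hE (hsub (by simp : ((yv u j (t + 1), true) : Lit) ∈ _))).2
    · rw [Finset.singleton_inj] at hl
      subst hl
      simp only [sat_true, val_yv] at hsat
      exact hsat.1
  -- the largest positive unit
  obtain ⟨t₁, ht₁, ht₁max⟩ : ∃ t, ({((yv u j t, true) : Lit)} : Clause) ∈ S ∧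
      ∀ s, ({((yv u j s, true) : Lit)} : Clause) ∈ S → s ≤ t := by
    have hne : ((Finset.range (len n u j + 1)).filter
        (fun t => ({((yv u j t, true) : Lit)} : Clause) ∈ S)).Nonempty :=
      ⟨t₀, by simp only [Finset.mem_filter, Finset.mem_range]; exact ⟨by have := hle t₀ hunit; omega, hunit⟩⟩
    refine ⟨_, (Finset.mem_filter.1 (Finset.max'_mem _ hne)).2, ?_⟩
    intro s hs
    apply Finset.le_max'
    simp only [Finset.mem_filter, Finset.mem_range]
    exact ⟨by have := hle s hs; omega, hs⟩
  -- all later links are present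
  have hlinks : ∀ t, t₁ ≤ t → t < len n u j → lcl n u j t ∈ S := by
    intro t h1t htl
    obtain ⟨D, hD, hne, hfal⟩ := hS (fun x => (val A x ∧ ¬ ∃ s, t < s ∧ x = yv u j s) ∨
      ∃ s ≤ len n i j, x = yv i j s)
    rcases modif hA hD hne hfal with ⟨i', hi', hsub⟩ | ⟨l, hl, h1, h2, h3⟩
    · exfalso
      have : i' = i := A.injective (hi'.trans hi.symm)
      subst this
      have h := hfal _ (hj.1 D hD hne hsub)
      simp only [sat_true, not_or] at h
      exact h.2 ⟨0, Nat.zero_le _, rfl⟩
    · obtain ⟨x, b⟩ := l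
      cases b with
      | true =>
        -- a positive literal of the chain `(u, j)` beyond `t`
        simp only [sat_true, not_or, not_and, not_not] at h1 h2
        obtain ⟨s, hs, rfl⟩ := h2.1 h1
        rcases h3 with h3 | ⟨E, hE, hsub, _⟩
        · exfalso
          have := ht₁max s (h3 ▸ hD)
          omega
        · cases s with
          | zero => omega
          | succ s =>
            obtain ⟨rfl, hsl⟩ := cls_succ hE (hsub hl)
            have hmem : ((yv u j s, false) : Lit) ∈ D := by
              by_contra hc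
              have hDs : D = {((yv u j (s + 1), true) : Lit)} := by
                apply Finset.eq_singleton_iff_unique_mem.2
                refine ⟨hl, ?_⟩
                intro m hm
                rcases mem_lcl.1 (hsub hm) with rfl | rfl
                · exact absurd hm hc
                · rfl
              have := ht₁max (s + 1) (hDs ▸ hD)
              omega
            have hDE : D = lcl n u j s := by
              apply Finset.Subset.antisymm hsub
              intro m hm
              rcases mem_lcl.1 hm with rfl | rfl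
              · exact hmem
              · exact hl
            have h := hfal _ hmem
            simp only [sat_false, not_not] at h
            rcases h with h | ⟨s', _, h⟩
            · have hst : ¬ t < s := fun hc => h.2 ⟨s, hc, rfl⟩
              have : s = t := by omega
              subst this
              exact hDE ▸ hD
            · simp only [yv_inj, Fin.val_inj] at h
              exact absurd h.1.symm hiu
      | false =>
        exfalso
        simp only [sat_false, not_not] at h1 h2
        rcases h2 with h2 | ⟨s, hsl, rfl⟩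
        · exact absurd h2.1 h1
        rcases h3 with h3 | ⟨E, hE, hsub, _⟩
        · exact absurd (h3 ▸ hD) (hj.2 s hsl)
        rcases cls_neg hE (hsub hl) with ⟨rfl, hlt⟩ | ⟨hs', k, hk, rfl⟩
        · have hmem : ((yv i j (s + 1), true) : Lit) ∈ D := by
            by_contra hc
            apply hj.2 s hsl
            have : D = {((yv i j s, false) : Lit)} := by
              apply Finset.eq_singleton_iff_unique_mem.2
              refine ⟨hl, ?_⟩
              intro m hm
              rcases mem_lcl.1 (hsub hm) with rfl | rfl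
              · rfl
              · exact absurd hm hc
            exact this ▸ hD
          have h := hfal _ hmem
          simp only [sat_true, not_or, not_exists, not_and] at h
          exact h.2 (s + 1) hlt rfl
        · have hmem : ((yv k j (len n k j), false) : Lit) ∈ D := by
            by_contra hc
            apply hj.2 s hsl
            have : D = {((yv i j s, false) : Lit)} := by
              apply Finset.eq_singleton_iff_unique_mem.2
              refine ⟨hl, ?_⟩
              intro m hm
              rcases mem_hcl.1 (hsub hm) with rfl | rfl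
              · rw [hs']
              · exact absurd hm hc
            exact this ▸ hD
          have h := hfal _ hmem
          simp only [sat_false, not_not] at h
          rcases h with h | ⟨s', _, h⟩
          · rw [val_yv] at h
            have : k = u := A.injective (h.1.2.trans hu.symm)
            subst this
            exact h.2 ⟨_, htl, rfl⟩
          · simp only [yv_inj, Fin.val_inj] at h
            exact absurd h.1 hk
  -- transport to the renamed cedent
  by_cases hex : ∃ A'' : Mat n, Cons A'' (rename g S)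
  swap
  · exact ⟨i, fun A' hA' _ => absurd ⟨A', hA'⟩ hex⟩
  obtain ⟨A'', hA''⟩ := hex
  have hgi := fix_chain hA hS hi hU hj hA'' (len n i j) le_rfl
  have hhole := hole_mem hA hS hi hj hu
  obtain ⟨_, k, hk, hgk⟩ := ren_hole hA'' hiu hhole hgi
  have hback : ∀ r, r ≤ len n u j - t₁ → ∃ s, s + r = len n k j ∧
      g (yv u j (len n u j - r)) = yv k j s := by
    intro r
    induction r with
    | zero => intro _; exact ⟨len n k j, by simp, by simpa using hgk⟩
    | succ r ih =>
      intro hr
      obtain ⟨s, hs, hgs⟩ := ih (by omega)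
      have e1 : len n u j - r = (len n u j - (r + 1)) + 1 := by omega
      rw [e1] at hgs
      obtain ⟨s', rfl, _, hgs'⟩ := ren_link_back hA'' (hlinks _ (by omega) (by omega)) hgs
      exact ⟨s', by omega, hgs'⟩
  have ht₁le := hle t₁ ht₁
  obtain ⟨s, hs, hgs⟩ := hback (len n u j - t₁) le_rfl
  have e2 : len n u j - (len n u j - t₁) = t₁ := by omega
  rw [e2] at hgs
  have himg : ({((yv k j s, true) : Lit)} : Clause) ∈ rename g S := by
    refine mem_rename.2 ⟨_, ht₁, ?_⟩
    rw [renClause_singleton]
    simp [renLit, hgs]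
  refine ⟨k, ?_⟩
  intro A' hA' hij
  have hkj : A' k ≠ some j := fun h => hk (A'.injective (h.trans hij.symm))
  rcases hA' _ himg (by simp) with ⟨E, hE, hsub, hfal⟩ | ⟨l, hl, hsat⟩
  · cases s with
    | zero =>
      have hE' := cls_start hE (hsub (by simp : ((yv k j 0, true) : Lit) ∈ _))
      subst hE'
      by_contra hc
      obtain ⟨j', hj'⟩ := Option.ne_none_iff_exists'.1 hc
      have := hfal (yv k j' 0, true) (mem_pcl.2 ⟨j', rfl⟩) (by
        simp only [Finset.mem_singleton, Prod.mk.injEq, yv_inj, Fin.val_inj, and_true, true_and]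
        rintro rfl
        exact hkj hj')
      simp only [sat_true, val_yv] at this
      exact this ⟨Nat.zero_le _, hj'⟩
    | succ s =>
      exfalso
      obtain ⟨rfl, hsl⟩ := cls_succ hE (hsub (by simp : ((yv k j (s + 1), true) : Lit) ∈ _))
      have := hfal (yv k j s, false) (mem_lcl.2 (Or.inl rfl)) (by simp)
      simp only [sat_false, not_not, val_yv] at this
      exact hkj this.2
  · exfalso
    rw [Finset.singleton_inj] at hl
    subst hl
    simp only [sat_true, val_yv] at hsat
    exact hkj hsat.2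

/-! ### Killed pairs -/

/-- The pair `(i, j)` is killed by `S`: for every renaming of `S` at most one pigeon can be
unmatched in a consistent critical matching sending `i` to `j`. -/
def Killed (S : Cedent) (p : Fin (n + 1) × Fin n) : Prop :=
  ∀ g : Equiv.Perm ℕ, ∀ A B : Mat n, Cons A (rename g S) → Cons B (rename g S) →
    A p.1 = some p.2 → B p.1 = some p.2 → A.symm none = B.symm none

lemma killed_rename {S : Cedent} {π : Equiv.Perm ℕ} {p : Fin (n + 1) × Fin n}
    (h : Killed (rename π S) p) : Killed S p := by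
  intro g A B hA hB
  have := h (g * π⁻¹) A B
  rw [rename_rename, inv_mul_cancel_right] at this
  exact this hA hB

lemma killed_of_notMem {A : Mat n} {S : Cedent} (hA : Cons A S) (hS : Uns S)
    {i : Fin (n + 1)} (hi : A i = none) (hU : i ∉ UU n S) {j₀ : Fin n} (hj₀ : j₀ ∈ JJ n S i)
    {j : Fin n} (hj : j ∉ JJ n S i) : Killed S (i, j) := by
  intro g A' B' hA' _ h1 _
  exact absurd (excl hA hS hi hU hj₀ hA' h1) hj

lemma killed_of_forced {A : Mat n} {S : Cedent} (hA : Cons A S) (hS : Uns S)
    {i : Fin (n + 1)} (hi : A i = none) (hU : i ∉ UU n S) {j : Fin n} (hj : j ∈ JJ n S i)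
    {u : Fin (n + 1)} (hu : A u = some j) {t₀ : ℕ}
    (hunit : ({(yv u j t₀, true)} : Clause) ∈ S) : Killed S (i, j) := by
  intro g A' B' hA' hB' h1 h2
  obtain ⟨k, hk⟩ := forced (g := g) hA hS hi hU hj hu hunit
  have e1 := hk A' hA' h1
  have e2 := hk B' hB' h2
  rw [(Equiv.symm_apply_eq A').2 e1.symm, (Equiv.symm_apply_eq B').2 e2.symm]

/-- a consistent matching sends `i` to an allowed hole -/
lemma allowed_of_cons {B : Mat n} {S : Cedent} (hB : Cons B S) {i : Fin (n + 1)} {j : Fin n}
    (hj : B i = some j) : j ∈ JJ n S i := by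
  refine ⟨?_, fun t ht h => neg_unit hB ht h hj⟩
  intro D hD hne hsub
  rcases hB D hD hne with ⟨E, hE, hsubE, hfal⟩ | ⟨l, hl, hsat⟩
  · obtain ⟨x, hx⟩ := Finset.nonempty_iff_ne_empty.2 hne
    obtain ⟨j', rfl⟩ := mem_pcl.1 (hsub hx)
    have hE' := cls_start hE (hsubE hx)
    subst hE'
    by_contra hc
    have := hfal (yv i j 0, true) (mem_pcl.2 ⟨j, rfl⟩) hc
    simp only [sat_true, val_yv] at this
    exact this ⟨Nat.zero_le _, hj⟩
  · subst hl
    obtain ⟨j', rfl⟩ := mem_pcl.1 (hsub (Finset.mem_singleton_self l))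
    simp only [sat_true, val_yv] at hsat
    have : j' = j := by
      have := hsat.2.symm.trans hj
      simpa using this
    subst this
    simp

/-- `A` extends the partial matching `ρ` -/
def Ext (ρ : Finset (Fin (n + 1) × Fin n)) (A : Mat n) : Prop := ∀ p ∈ ρ, A p.1 = some p.2

/-- the pigeons which can be unmatched in a consistent critical matching extending `ρ` -/
def Crit (ρ : Finset (Fin (n + 1) × Fin n)) (S : Cedent) : Set (Fin (n + 1)) :=
  {i | ∃ A : Mat n, Ext ρ A ∧ A i = none ∧ Cons A S}

/-- the swap of two pigeons in a matching -/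
lemma killed_of_notCrit {ρ : Finset (Fin (n + 1) × Fin n)} {A : Mat n} {S : Cedent}
    (hρ : Ext ρ A) (hA : Cons A S) (hS : Uns S)
    {i : Fin (n + 1)} (hi : A i = none) (hU : i ∉ UU n S) {j₀ : Fin n} (hj₀ : j₀ ∈ JJ n S i)
    {i' : Fin (n + 1)} {j : Fin n} (hj : A i' = some j) (hrow : ∀ p ∈ ρ, p.1 ≠ i')
    (hcrit : i' ∉ Crit ρ S) : Killed S (i, j) := by
  by_cases hjJ : j ∈ JJ n S i
  swap
  · exact killed_of_notMem hA hS hi hU hj₀ hjJ
  have hii : i ≠ i' := by
    rintro rfl
    rw [hi] at hj
    simp at hj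
  let B : Mat n := (Equiv.swap i i').trans A
  have hBi : B i = some j := by simp [B, hj]
  have hBi' : B i' = none := by simp [B, hi]
  have hB : ∀ a, a ≠ i → a ≠ i' → B a = A a := by
    intro a h1 h2
    simp [B, Equiv.swap_apply_of_ne_of_ne h1 h2]
  have hBρ : Ext ρ B := by
    intro p hp
    rw [hB p.1 ?_ (hrow p hp)]
    · exact hρ p hp
    · intro h
      have := hρ p hp
      rw [h, hi] at this
      simp at this
  have hBc : ¬ Cons B S := fun h => hcrit ⟨B, hBρ, hBi', h⟩
  unfold Cons at hBc
  push Not at hBc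
  obtain ⟨D, hD, hne', hnj⟩ := hBc
  have hne : D ≠ ∅ := Finset.nonempty_iff_ne_empty.1 hne'
  -- comparison of the two assignments
  have cmp1 : ∀ x, val A x → ¬ val B x → ∃ t ≤ len n i' j, x = yv i' j t := by
    rintro x ⟨a, b, t, ht, rfl, hab⟩ hn
    have ha : a ≠ i := by
      rintro rfl
      rw [hi] at hab
      simp at hab
    have ha' : a = i' := by
      by_contra hc
      exact hn (val_yv.2 ⟨ht, by rw [hB a ha hc]; exact hab⟩)
    subst ha'
    have : b = j := by
      have := hab.symm.trans hj
      simpa using this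
    subst this
    exact ⟨t, ht, rfl⟩
  have cmp2 : ∀ x, val B x → ¬ val A x → ∃ t ≤ len n i j, x = yv i j t := by
    rintro x ⟨a, b, t, ht, rfl, hab⟩ hn
    have ha : a ≠ i' := by
      rintro rfl
      rw [hBi'] at hab
      simp at hab
    have ha' : a = i := by
      by_contra hc
      exact hn (val_yv.2 ⟨ht, by rw [← hB a hc ha]; exact hab⟩)
    subst ha'
    have : b = j := by
      have := hab.symm.trans hBi
      simpa using this
    subst this
    exact ⟨t, ht, rfl⟩
  -- the offending clause is a positive unit of the chain `(i', j)`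
  have hfound : ∃ t, ({((yv i' j t, true) : Lit)} : Clause) ∈ S := by
    rcases hA D hD hne with ⟨E, hE, hsub, hfal⟩ | ⟨l, hl, hsat⟩
    · have : ∃ l ∈ E, l ∉ D ∧ Sat (val B) l := by
        by_contra hc
        push Not at hc
        exact hnj (Or.inl ⟨E, hE, hsub, hc⟩)
      obtain ⟨⟨x, b⟩, hl, hlD, hsB⟩ := this
      have hsA := hfal _ hl hlD
      cases b with
      | true =>
        exfalso
        simp only [sat_true] at hsA hsB
        obtain ⟨t, ht, rfl⟩ := cmp2 x hsB hsA
        cases t with
        | zero =>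
          have := cls_start hE hl
          subst this
          exact hlD (hjJ.1 D hD hne hsub)
        | succ s =>
          obtain ⟨rfl, hs⟩ := cls_succ hE hl
          apply hjJ.2 s (by omega)
          have : D = {((yv i j s, false) : Lit)} := by
            apply Finset.eq_singleton_iff_nonempty_unique_mem.2
            refine ⟨Finset.nonempty_iff_ne_empty.2 hne, ?_⟩
            intro m hm
            rcases mem_lcl.1 (hsub hm) with rfl | rfl
            · rfl
            · exact absurd hm hlD
          exact this ▸ hD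
      | false =>
        simp only [sat_false, not_not] at hsA hsB
        obtain ⟨t, ht, rfl⟩ := cmp1 x hsA hsB
        rcases cls_neg hE hl with ⟨rfl, hlt⟩ | ⟨ht', k, hk, rfl⟩
        · refine ⟨t + 1, ?_⟩
          have : D = {((yv i' j (t + 1), true) : Lit)} := by
            apply Finset.eq_singleton_iff_nonempty_unique_mem.2
            refine ⟨Finset.nonempty_iff_ne_empty.2 hne, ?_⟩
            intro m hm
            rcases mem_lcl.1 (hsub hm) with rfl | rfl
            · exact absurd hm hlD
            · rfl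
          exact this ▸ hD
        · exfalso
          have hDk : D = {((yv k j (len n k j), false) : Lit)} := by
            apply Finset.eq_singleton_iff_nonempty_unique_mem.2
            refine ⟨Finset.nonempty_iff_ne_empty.2 hne, ?_⟩
            intro m hm
            rcases mem_hcl.1 (hsub hm) with rfl | rfl
            · rw [← ht'] at hm
              exact absurd hm hlD
            · rfl
          by_cases hki : k = i
          · subst hki
            exact hjJ.2 _ le_rfl (hDk ▸ hD)
          · apply hnj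
            right
            refine ⟨_, hDk, ?_⟩
            simp only [sat_false, val_yv, not_and]
            intro _ hc
            exact hki (B.injective (hc.trans hBi.symm))
    · subst hl
      obtain ⟨x, b⟩ := l
      have hnsat : ¬ Sat (val B) (x, b) := fun h => hnj (Or.inr ⟨_, rfl, h⟩)
      cases b with
      | true =>
        simp only [sat_true] at hsat hnsat
        obtain ⟨t, _, rfl⟩ := cmp1 x hsat hnsat
        exact ⟨t, hD⟩
      | false =>
        exfalso
        simp only [sat_false, not_not] at hsat hnsat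
        obtain ⟨t, ht, rfl⟩ := cmp2 x hnsat hsat
        exact hjJ.2 t ht hD
  obtain ⟨t, ht⟩ := hfound
  exact killed_of_forced hA hS hi hU hjJ hj ht

/-- unit pigeons lead to killed pairs -/
lemma killed_of_unit {A : Mat n} {S : Cedent} (hA : Cons A S) (hS : Uns S)
    {i : Fin (n + 1)} (hi : A i = none) (hU : i ∉ UU n S) {j₀ : Fin n} (hj₀ : j₀ ∈ JJ n S i)
    {u : Fin (n + 1)} (hu : u ∈ UU n S) : ∃ j, A u = some j ∧ Killed S (i, j) := by
  obtain ⟨j, hj⟩ := hu
  have hiu : i ≠ u := by
    rintro rfl
    exact hU ⟨j, hj⟩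
  have hAu : A u = some j := by
    rcases hA _ hj (by simp) with ⟨E, hE, hsub, hfal⟩ | ⟨l, hl, hsat⟩
    · have := cls_start hE (hsub (by simp : ((yv u j 0, true) : Lit) ∈ _))
      subst this
      have hne : A u ≠ none := fun h => hiu (A.injective (hi.trans h.symm))
      obtain ⟨j', hj'⟩ := Option.ne_none_iff_exists'.1 hne
      by_contra hc
      have := hfal (yv u j' 0, true) (mem_pcl.2 ⟨j', rfl⟩) (by
        simp only [Finset.mem_singleton, Prod.mk.injEq, yv_inj, Fin.val_inj, and_true, true_and]
        rintro rfl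
        exact hc hj')
      simp only [sat_true, val_yv] at this
      exact this ⟨Nat.zero_le _, hj'⟩
    · rw [Finset.singleton_inj] at hl
      subst hl
      simp only [sat_true, val_yv] at hsat
      exact hsat.2
  refine ⟨j, hAu, ?_⟩
  by_cases hjJ : j ∈ JJ n S i
  · exact killed_of_forced hA hS hi hU hjJ hAu hj
  · exact killed_of_notMem hA hS hi hU hj₀ hjJ

/-! ### Counting -/

open Classical in
/-- the finite set of killed pairs -/
noncomputable def KF (n : ℕ) (S : Cedent) : Finset (Fin (n + 1) × Fin n) :=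
  Finset.univ.filter (fun p => Killed S p)

open Classical in
noncomputable def CF (ρ : Finset (Fin (n + 1) × Fin n)) (S : Cedent) : Finset (Fin (n + 1)) :=
  Finset.univ.filter (fun i => i ∈ Crit ρ S)

open Classical in
noncomputable def UF (n : ℕ) (S : Cedent) : Finset (Fin (n + 1)) :=
  Finset.univ.filter (fun i => i ∈ UU n S)

/-- rows used by `ρ` -/
def rows (ρ : Finset (Fin (n + 1) × Fin n)) : Finset (Fin (n + 1)) := ρ.image Prod.fst

lemma mem_CF {ρ : Finset (Fin (n + 1) × Fin n)} {S : Cedent} {i : Fin (n + 1)} :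
    i ∈ CF ρ S ↔ i ∈ Crit ρ S := by simp [CF]

lemma mem_UF {S : Cedent} {i : Fin (n + 1)} : i ∈ UF n S ↔ i ∈ UU n S := by simp [UF]

lemma mem_KF {S : Cedent} {p : Fin (n + 1) × Fin n} : p ∈ KF n S ↔ Killed S p := by simp [KF]

lemma crit_not_row {ρ : Finset (Fin (n + 1) × Fin n)} {S : Cedent} {i : Fin (n + 1)}
    (h : i ∈ Crit ρ S) : i ∉ rows ρ := by
  intro hr
  obtain ⟨A, hρ, hi, _⟩ := h
  obtain ⟨p, hp, rfl⟩ := Finset.mem_image.1 hr
  have := hρ p hp
  rw [hi] at this
  simp at this

/-- lower bound for the number of killed pairs -/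
lemma KF_card {ρ : Finset (Fin (n + 1) × Fin n)} {S : Cedent} (hS : Uns S)
    (V : Finset (Fin (n + 1))) (hV : ∀ i ∈ V, i ∈ Crit ρ S ∧ i ∉ UU n S)
    (htwo : 2 ≤ (CF ρ S).card) (X : Finset (Fin (n + 1)))
    (hX : (∀ x ∈ X, x ∈ UU n S) ∨ (∀ x ∈ X, x ∉ Crit ρ S ∧ x ∉ rows ρ)) :
    V.card * X.card ≤ (KF n S).card := by
  classical
  have key : ∀ i ∈ V, X.card ≤ ((KF n S).filter (fun p => p.1 = i)).card := by
    intro i hi
    obtain ⟨⟨A, hρ, hAi, hA⟩, hU⟩ := hV i hi
    obtain ⟨k, hk, hki⟩ : ∃ k ∈ CF ρ S, k ≠ i := by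
      obtain ⟨a, ha, b, hb, hab⟩ := Finset.one_lt_card.1 (by omega : 1 < (CF ρ S).card)
      by_cases h : a = i
      · exact ⟨b, hb, by rw [← h]; exact hab.symm⟩
      · exact ⟨a, ha, h⟩
    obtain ⟨B, _, hBk, hB⟩ := mem_CF.1 hk
    have hBi : B i ≠ none := fun h => hki (B.injective (hBk.trans h.symm))
    obtain ⟨j₀, hj₀⟩ := Option.ne_none_iff_exists'.1 hBi
    have hj₀J := allowed_of_cons hB hj₀
    have hex : ∀ x ∈ X, ∃ j, A x = some j ∧ Killed S (i, j) := by
      intro x hx
      rcases hX with hX | hX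
      · exact killed_of_unit hA hS hAi hU hj₀J (hX x hx)
      · obtain ⟨h1, h2⟩ := hX x hx
        have hxi : x ≠ i := by
          rintro rfl
          exact h1 (hV x hi).1
        have hAx : A x ≠ none := fun h => hxi (A.injective (h.trans hAi.symm))
        obtain ⟨j, hj⟩ := Option.ne_none_iff_exists'.1 hAx
        exact ⟨j, hj, killed_of_notCrit hρ hA hS hAi hU hj₀J hj
          (fun p hp h => h2 (Finset.mem_image.2 ⟨p, hp, h⟩)) h1⟩
    have : Nonempty (Fin n) := ⟨j₀⟩
    choose! f hf1 hf2 using hex
    apply Finset.card_le_card_of_injOn (fun x => (i, f x))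
    · intro x hx
      simp only [Finset.coe_filter, Set.mem_ofPred_eq]
      exact ⟨mem_KF.2 (hf2 x hx), trivial⟩
    · intro x hx y hy hxy
      simp only [Prod.mk.injEq, true_and] at hxy
      have h1 := hf1 x hx
      have h2 := hf1 y hy
      rw [hxy, ← h2] at h1
      exact A.injective h1
  calc V.card * X.card = ∑ _i ∈ V, X.card := by simp
    _ ≤ ∑ i ∈ V, ((KF n S).filter (fun p => p.1 = i)).card := Finset.sum_le_sum key
    _ ≤ ∑ i : Fin (n + 1), ((KF n S).filter (fun p => p.1 = i)).card :=
        Finset.sum_le_sum_of_subset (Finset.subset_univ _)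
    _ = (KF n S).card := (Finset.card_eq_sum_card_fiberwise (fun _ _ => Finset.mem_univ _)).symm

/-- the key notion: a cedent is big if it has many critical pigeons and few units -/
def Big (u : ℕ) (ρ : Finset (Fin (n + 1) × Fin n)) (S : Cedent) : Prop :=
  4 * u < (CF ρ S).card ∧ (UF n S).card < u

/-- a nonbig cedent with more than `2u` critical pigeons and at most `u` units kills many pairs -/
lemma KF_large {u : ℕ} {ρ : Finset (Fin (n + 1) × Fin n)} {S : Cedent} (hS : Uns S)
    (hM : (rows ρ).card + 6 * u = n + 1) (hu : 1 ≤ u)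
    (h1 : 2 * u < (CF ρ S).card) (h2 : (UF n S).card ≤ u) (h3 : ¬ Big u ρ S) :
    u * u ≤ (KF n S).card := by
  classical
  have hV : ∀ i ∈ CF ρ S \ UF n S, i ∈ Crit ρ S ∧ i ∉ UU n S := by
    intro i hi
    rw [Finset.mem_sdiff, mem_CF, mem_UF] at hi
    exact hi
  have hVc : u ≤ (CF ρ S \ UF n S).card := by
    have := Finset.le_card_sdiff (UF n S) (CF ρ S)
    omega
  by_cases hU : (UF n S).card < u
  · -- few critical pigeons
    have hC : (CF ρ S).card ≤ 4 * u := by
      by_contra hc
      exact h3 ⟨by omega, hU⟩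
    have hX : ∀ x ∈ (Finset.univ \ rows ρ) \ CF ρ S, x ∉ Crit ρ S ∧ x ∉ rows ρ := by
      intro x hx
      simp only [Finset.mem_sdiff, Finset.mem_univ, true_and, mem_CF] at hx
      exact ⟨hx.2, hx.1⟩
    have hXc : u ≤ ((Finset.univ \ rows ρ) \ CF ρ S).card := by
      have e1 : (Finset.univ \ rows ρ).card = 6 * u := by
        rw [Finset.card_sdiff_of_subset (Finset.subset_univ _), Finset.card_univ, Fintype.card_fin]
        omega
      have := Finset.le_card_sdiff (CF ρ S) (Finset.univ \ rows ρ)
      omega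
    calc u * u ≤ (CF ρ S \ UF n S).card * ((Finset.univ \ rows ρ) \ CF ρ S).card :=
          Nat.mul_le_mul hVc hXc
      _ ≤ _ := KF_card hS _ hV (by omega) _ (Or.inr hX)
  · have hX : ∀ x ∈ UF n S, x ∈ UU n S := fun x hx => mem_UF.1 hx
    calc u * u ≤ (CF ρ S \ UF n S).card * (UF n S).card := Nat.mul_le_mul hVc (by omega)
      _ ≤ _ := KF_card hS _ hV (by omega) _ (Or.inl hX)

/-! ### The descent through the refutation -/

lemma CF_mono {ρ : Finset (Fin (n + 1) × Fin n)} {S T : Cedent} (h : S ⊆ T) : CF ρ T ⊆ CF ρ S := by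
  intro i hi
  obtain ⟨A, h1, h2, h3⟩ := mem_CF.1 hi
  exact mem_CF.2 ⟨A, h1, h2, cons_mono h3 h⟩

lemma UF_mono {S T : Cedent} (h : S ⊆ T) : UF n S ⊆ UF n T := by
  intro i hi
  obtain ⟨j, hj⟩ := mem_UF.1 hi
  exact mem_UF.2 ⟨j, h hj⟩

lemma CF_logical {ρ : Finset (Fin (n + 1) × Fin n)} {Γ Θ 𝒞 : Cedent} {l : Lit} :
    CF ρ (Γ ∪ Θ ∪ 𝒞.image (fun C => C ∪ {l})) ⊆ CF ρ (Γ ∪ 𝒞) ∪ CF ρ (Θ ∪ {{l}}) := by
  intro i hi
  obtain ⟨A, h1, h2, h3⟩ := mem_CF.1 hi
  rw [Finset.mem_union]
  by_cases hl : Sat (val A) l
  · exact Or.inr (mem_CF.2 ⟨A, h1, h2, cons_right h3 hl⟩)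
  · exact Or.inl (mem_CF.2 ⟨A, h1, h2, cons_left h3 hl⟩)

open Classical in
/-- the (at most one) pigeon whose start literal is `l` -/
noncomputable def rowOf (n : ℕ) (l : Lit) : Finset (Fin (n + 1)) :=
  Finset.univ.filter (fun u => ∃ j : Fin n, l = (yv u j 0, true))

lemma rowOf_card (l : Lit) : (rowOf n l).card ≤ 1 := by
  rw [Finset.card_le_one]
  intro a ha b hb
  simp only [rowOf, Finset.mem_filter, Finset.mem_univ, true_and] at ha hb
  obtain ⟨j, rfl⟩ := ha
  obtain ⟨j', h⟩ := hb
  simp only [Prod.mk.injEq, yv_inj, Fin.val_inj, and_true] at h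
  exact h.1

lemma UF_left {Γ Θ 𝒞 : Cedent} {l : Lit} {A : Mat n}
    (hA : Cons A (Γ ∪ Θ ∪ 𝒞.image (fun C => C ∪ {l}))) :
    (UF n (Γ ∪ 𝒞)).card ≤ (UF n (Γ ∪ Θ ∪ 𝒞.image (fun C => C ∪ {l}))).card + 1 := by
  have hsub : UF n (Γ ∪ 𝒞) ⊆ UF n (Γ ∪ Θ ∪ 𝒞.image (fun C => C ∪ {l})) ∪ rowOf n l := by
    intro u hu
    obtain ⟨j, hj⟩ := mem_UF.1 hu
    rw [Finset.mem_union]
    rcases Finset.mem_union.1 hj with hj | hj
    · exact Or.inl (mem_UF.2 ⟨j, by simp [hj]⟩)
    · have hmem : ({((yv u j 0, true) : Lit)} : Clause) ∪ {l} ∈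
          (Γ ∪ Θ ∪ 𝒞.image (fun C => C ∪ {l})) :=
        Finset.mem_union_right _ (Finset.mem_image.2 ⟨_, hj, rfl⟩)
      by_cases hl : l = (yv u j 0, true)
      · left
        refine mem_UF.2 ⟨j, ?_⟩
        rw [hl, Finset.union_idempotent] at hmem
        rw [hl]
        exact hmem
      · right
        obtain ⟨E, hE, hsub, _⟩ := just_two (hA _ hmem (by simp)) (l := (yv u j 0, true)) (m := l)
          (by simp) (by simp) (Ne.symm hl)
        have := cls_start hE (hsub (by simp : ((yv u j 0, true) : Lit) ∈ _))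
        subst this
        obtain ⟨j', hj'⟩ := mem_pcl.1 (hsub (by simp : l ∈ _))
        simp only [rowOf, Finset.mem_filter, Finset.mem_univ, true_and]
        exact ⟨j', hj'⟩
  calc _ ≤ _ := Finset.card_le_card hsub
    _ ≤ _ := Finset.card_union_le _ _
    _ ≤ _ := by have := rowOf_card (n := n) l; omega

lemma UF_right {Γ Θ 𝒞 : Cedent} {l : Lit} :
    (UF n (Θ ∪ {{l}})).card ≤ (UF n (Γ ∪ Θ ∪ 𝒞.image (fun C => C ∪ {l}))).card + 1 := by
  have hsub : UF n (Θ ∪ {{l}}) ⊆ UF n (Γ ∪ Θ ∪ 𝒞.image (fun C => C ∪ {l})) ∪ rowOf n l := by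
    intro u hu
    obtain ⟨j, hj⟩ := mem_UF.1 hu
    rw [Finset.mem_union]
    rcases Finset.mem_union.1 hj with hj | hj
    · exact Or.inl (mem_UF.2 ⟨j, by simp [hj]⟩)
    · right
      rw [Finset.mem_singleton, Finset.singleton_inj] at hj
      simp only [rowOf, Finset.mem_filter, Finset.mem_univ, true_and]
      exact ⟨j, hj.symm⟩
  calc _ ≤ _ := Finset.card_le_card hsub
    _ ≤ _ := Finset.card_union_le _ _
    _ ≤ _ := by have := rowOf_card (n := n) l; omega

/-- killing: if `ρ` contains a killed pair then at most one pigeon is critical -/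
lemma CF_killed {ρ : Finset (Fin (n + 1) × Fin n)} {S : Cedent} {π : Equiv.Perm ℕ}
    {p : Fin (n + 1) × Fin n} (hp : p ∈ ρ) (hk : Killed S p) : (CF ρ (rename π S)).card ≤ 1 := by
  rw [Finset.card_le_one]
  intro a ha b hb
  obtain ⟨A, h1, h2, h3⟩ := mem_CF.1 ha
  obtain ⟨B, h1', h2', h3'⟩ := mem_CF.1 hb
  have := hk π A B h3 h3' (h1 p hp) (h1' p hp)
  rw [(Equiv.symm_apply_eq A).2 h2.symm, (Equiv.symm_apply_eq B).2 h2'.symm] at this
  exact this

/-- no line of the refutation is big, for any renaming -/
lemma no_big {u : ℕ} {ρ : Finset (Fin (n + 1) × Fin n)} (hM : (rows ρ).card + 6 * u = n + 1)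
    (hu : 1 ≤ u) {Q : List Cedent} (hQ : ∀ (k : ℕ) (h : k < Q.length), GStep (Q.take k) (Q[k]))
    (hkill : ∀ S ∈ Q, u * u ≤ (KF n S).card → ∃ p ∈ ρ, Killed S p) :
    ∀ (k : ℕ) (h : k < Q.length), Uns (Q[k]) ∧ ∀ π : Equiv.Perm ℕ, ¬ Big u ρ (rename π (Q[k])) := by
  intro k
  induction k using Nat.strong_induction_on with
  | _ k ih =>
    intro h
    have hprev : ∀ T ∈ Q.take k, T ∈ Q ∧ Uns T ∧ ∀ π : Equiv.Perm ℕ, ¬ Big u ρ (rename π T) := by
      intro T hT
      obtain ⟨m, hm, rfl⟩ := List.mem_iff_getElem.1 hT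
      have hm' : m < k := by
        rw [List.length_take] at hm
        omega
      rw [List.getElem_take]
      exact ⟨List.getElem_mem _, ih m hm' (by omega)⟩
    have hstep := hQ k h
    refine ⟨uns_step (fun T hT => (hprev T hT).2.1) hstep, ?_⟩
    intro π hbig
    -- a premise with more than `2u` critical pigeons and at most `u` units is impossible
    have himp : ∀ T ∈ Q.take k, ∀ σ : Equiv.Perm ℕ, 2 * u < (CF ρ (rename σ T)).card →
        (UF n (rename σ T)).card ≤ u → False := by
      intro T hT σ h1 h2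
      obtain ⟨hTQ, hTU, hTB⟩ := hprev T hT
      have hlarge := KF_large (uns_rename hTU σ) hM hu h1 h2 (hTB σ)
      have hKF : KF n (rename σ T) ⊆ KF n T := fun p hp => mem_KF.2 (killed_rename (mem_KF.1 hp))
      obtain ⟨p, hp, hkp⟩ := hkill T hTQ (le_trans hlarge (Finset.card_le_card hKF))
      have := CF_killed (π := σ) hp hkp
      omega
    obtain ⟨hb1, hb2⟩ := hbig
    generalize hS : Q[k] = S at hstep hb1 hb2
    cases hstep with
    | initial p =>
      have : (CF ρ (rename π {{(p, true)}, {(p, false)}})).card ≤ 1 := by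
        have e : rename π {{(p, true)}, {(p, false)}} = {{(π p, true)}, {(π p, false)}} := by
          simp [rename, renClause, renLit, Finset.image_insert]
        rw [e, Finset.card_le_one]
        intro a ha b hb
        obtain ⟨A, _, h2, h3⟩ := mem_CF.1 ha
        obtain ⟨B, _, h2', h3'⟩ := mem_CF.1 hb
        have := cons_initial h3 h3'
        rw [(Equiv.symm_apply_eq A).2 h2.symm, (Equiv.symm_apply_eq B).2 h2'.symm] at this
        exact this
      omega
    | structural Γ Δ hΓ =>
      apply himp Γ hΓ π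
      · have : rename π Γ ⊆ rename π (Γ ∪ Δ) := by
          rw [rename_union]; exact Finset.subset_union_left
        have := Finset.card_le_card (CF_mono (ρ := ρ) this)
        omega
      · have : rename π Γ ⊆ rename π (Γ ∪ Δ) := by
          rw [rename_union]; exact Finset.subset_union_left
        have := Finset.card_le_card (UF_mono (n := n) this)
        omega
    | permutation σ Γ hΓ =>
      apply himp Γ hΓ (π * σ)
      · rw [rename_rename] at hb1
        omega
      · rw [rename_rename] at hb2
        omega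
    | logical l Γ Θ 𝒞 h0 h1 =>
      rw [logical_rename] at hb1 hb2
      have hc := Finset.card_le_card (CF_logical (ρ := ρ) (Γ := rename π Γ) (Θ := rename π Θ)
        (𝒞 := rename π 𝒞) (l := renLit π l))
      have hc2 := Finset.card_union_le (CF ρ (rename π Γ ∪ rename π 𝒞))
        (CF ρ (rename π Θ ∪ {{renLit π l}}))
      have hne : (CF ρ (rename π Γ ∪ rename π Θ ∪
          (rename π 𝒞).image (fun C => C ∪ {renLit π l}))).Nonempty := by
        rw [← Finset.card_pos]; omega
      obtain ⟨i, hi⟩ := hne
      obtain ⟨A, _, _, hA⟩ := mem_CF.1 hi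
      have e0 : rename π (Γ ∪ 𝒞) = rename π Γ ∪ rename π 𝒞 := rename_union _ _ _
      have e1 : rename π (Θ ∪ {{l}}) = rename π Θ ∪ {{renLit π l}} := by
        rw [rename_union, rename_singleton, renClause_singleton]
      by_cases hcase : 2 * u < (CF ρ (rename π Γ ∪ rename π 𝒞)).card
      · apply himp _ h0 π
        · rw [e0]; exact hcase
        · rw [e0]
          have := UF_left hA
          omega
      · apply himp _ h1 π
        · rw [e1]; omega
        · rw [e1]
          have := UF_right (n := n) (Γ := rename π Γ) (Θ := rename π Θ)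
            (𝒞 := rename π 𝒞) (l := renLit π l)
          omega

/-! ### The root is big -/

def IsMatching (ρ : Finset (Fin (n + 1) × Fin n)) : Prop :=
  (∀ p ∈ ρ, ∀ q ∈ ρ, p.1 = q.1 → p = q) ∧ (∀ p ∈ ρ, ∀ q ∈ ρ, p.2 = q.2 → p = q)

lemma exists_ext (ρ : Finset (Fin (n + 1) × Fin n)) (hρ : IsMatching ρ) (i : Fin (n + 1))
    (hi : i ∉ rows ρ) : ∃ A : Mat n, Ext ρ A ∧ A i = none := by
  classical
  induction ρ using Finset.induction_on with
  | empty =>
    let A₀ : Mat n := finSuccEquiv n
    refine ⟨(Equiv.swap i (A₀.symm none)).trans A₀, ?_, ?_⟩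
    · intro p hp
      simp at hp
    · simp
  | insert p ρ hp ih =>
    have hρ' : IsMatching ρ := ⟨fun a ha b hb => hρ.1 a (Finset.mem_insert_of_mem ha) b
      (Finset.mem_insert_of_mem hb), fun a ha b hb => hρ.2 a (Finset.mem_insert_of_mem ha) b
      (Finset.mem_insert_of_mem hb)⟩
    have hi' : i ∉ rows ρ := by
      intro h
      apply hi
      simp only [rows, Finset.image_insert, Finset.mem_insert]
      exact Or.inr h
    have hip : i ≠ p.1 := by
      rintro rfl
      apply hi
      simp [rows]
    obtain ⟨A, hA, hAi⟩ := ih hρ' hi'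
    refine ⟨(Equiv.swap p.1 (A.symm (some p.2))).trans A, ?_, ?_⟩
    · intro s hs
      rcases Finset.mem_insert.1 hs with rfl | hs
      · simp
      · have h1 : s.1 ≠ p.1 := by
          intro h
          have := hρ.1 s (Finset.mem_insert_of_mem hs) p (Finset.mem_insert_self _ _) h
          exact hp (this ▸ hs)
        have h2 : s.1 ≠ A.symm (some p.2) := by
          intro h
          have h3 := hA s hs
          rw [h, Equiv.apply_symm_apply] at h3
          simp only [Option.some.injEq] at h3
          have := hρ.2 s (Finset.mem_insert_of_mem hs) p (Finset.mem_insert_self _ _) h3.symm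
          exact hp (this ▸ hs)
        simp only [Equiv.trans_apply, Equiv.swap_apply_of_ne_of_ne h1 h2]
        exact hA s hs
    · have h2 : i ≠ A.symm (some p.2) := by
        intro h
        rw [h, Equiv.apply_symm_apply] at hAi
        simp at hAi
      simp only [Equiv.trans_apply, Equiv.swap_apply_of_ne_of_ne hip h2]
      exact hAi

lemma cons_Fml (A : Mat n) : Cons A (Fml n) := fun D hD _ =>
  Or.inl ⟨D, hD, Finset.Subset.refl _, fun _ h1 h2 => absurd h1 h2⟩

lemma root_big {u : ℕ} {ρ : Finset (Fin (n + 1) × Fin n)} (hρ : IsMatching ρ)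
    (hM : (rows ρ).card + 6 * u = n + 1) (hu : 1 ≤ u) (hn : 2 ≤ n) : Big u ρ (Fml n) := by
  classical
  constructor
  · have hsub : Finset.univ \ rows ρ ⊆ CF ρ (Fml n) := by
      intro i hi
      simp only [Finset.mem_sdiff, Finset.mem_univ, true_and] at hi
      obtain ⟨A, hA, hAi⟩ := exists_ext ρ hρ i hi
      exact mem_CF.2 ⟨A, hA, hAi, cons_Fml A⟩
    have := Finset.card_le_card hsub
    rw [Finset.card_sdiff_of_subset (Finset.subset_univ _), Finset.card_univ,
      Fintype.card_fin] at this
    omega
  · have : UF n (Fml n) = ∅ := by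
      rw [Finset.eq_empty_iff_forall_notMem]
      intro i hi
      obtain ⟨j, hj⟩ := mem_UF.1 hi
      have := cls_start hj (Finset.mem_singleton_self _)
      have h0 : ((yv i (⟨0, by omega⟩ : Fin n) 0, true) : Lit) ∈ pcl n i := mem_pcl.2 ⟨_, rfl⟩
      have h1 : ((yv i (⟨1, by omega⟩ : Fin n) 0, true) : Lit) ∈ pcl n i := mem_pcl.2 ⟨_, rfl⟩
      rw [← this, Finset.mem_singleton] at h0 h1
      have := h0.trans h1.symm
      simp [yv_inj] at this
    rw [this, Finset.card_empty]
    omega

/-! ### The greedy choice of the restriction -/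

def cols (ρ : Finset (Fin (n + 1) × Fin n)) : Finset (Fin n) := ρ.image Prod.snd

lemma greedy {r : ℕ} (hn : n + 1 = 169 * r) (_hr : 1 ≤ r) (H : Finset Cedent)
    (hH : ∀ S ∈ H, (28 * r) * (28 * r) ≤ (KF n S).card) :
    ∀ m ≤ r, ∃ ρ : Finset (Fin (n + 1) × Fin n), IsMatching ρ ∧ ρ.card = m ∧
      100 ^ m * (H.filter (fun S => ∀ p ∈ ρ, p ∉ KF n S)).card ≤ 99 ^ m * H.card := by
  classical
  intro m
  induction m with
  | zero =>
    intro _
    exact ⟨∅, ⟨by simp, by simp⟩, by simp, by simp⟩
  | succ m ih =>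
    intro hm
    obtain ⟨ρ, hρ, hcard, hle⟩ := ih (by omega)
    set H' := H.filter (fun S => ∀ p ∈ ρ, p ∉ KF n S) with hH'
    set Av : Finset (Fin (n + 1) × Fin n) := Finset.univ.filter
      (fun p => p.1 ∉ rows ρ ∧ p.2 ∉ cols ρ) with hAv
    have hrows : (rows ρ).card ≤ m := by rw [← hcard]; exact Finset.card_image_le
    have hcols : (cols ρ).card ≤ m := by rw [← hcard]; exact Finset.card_image_le
    -- the complement of the available pairs is small
    have hcompl : (Finset.univ \ Av).card ≤ m * n + (n + 1) * m := by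
      have hsub : Finset.univ \ Av ⊆ (rows ρ ×ˢ Finset.univ) ∪ (Finset.univ ×ˢ cols ρ) := by
        intro p hp
        simp only [hAv, Finset.mem_sdiff, Finset.mem_univ, true_and, Finset.mem_filter,
          not_and_or, not_not] at hp
        rw [Finset.mem_union, Finset.mem_product, Finset.mem_product]
        rcases hp with hp | hp
        · exact Or.inl ⟨hp, Finset.mem_univ _⟩
        · exact Or.inr ⟨Finset.mem_univ _, hp⟩
      calc _ ≤ _ := Finset.card_le_card hsub
        _ ≤ _ := Finset.card_union_le _ _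
        _ = (rows ρ).card * n + (n + 1) * (cols ρ).card := by
            rw [Finset.card_product, Finset.card_product]
            simp
        _ ≤ _ := by
            exact Nat.add_le_add (Nat.mul_le_mul_right _ hrows) (Nat.mul_le_mul_left _ hcols)
    have hbound : m * n + (n + 1) * m ≤ 338 * (r * r) := by
      have h1 : m ≤ r := by omega
      have h2 : n ≤ 169 * r := by omega
      calc m * n + (n + 1) * m ≤ r * (169 * r) + (169 * r) * r := by
            rw [hn]
            exact Nat.add_le_add (Nat.mul_le_mul h1 h2) (Nat.mul_le_mul_left _ h1)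
        _ = 338 * (r * r) := by ring
    have hAvcard : Av.card ≤ 28561 * (r * r) := by
      calc Av.card ≤ (Finset.univ : Finset (Fin (n + 1) × Fin n)).card :=
            Finset.card_le_card (Finset.subset_univ _)
        _ = (n + 1) * n := by simp
        _ ≤ (169 * r) * (169 * r) := by
            rw [hn]
            exact Nat.mul_le_mul_left _ (by omega)
        _ = 28561 * (r * r) := by ring
    have hK : ∀ S ∈ H', 446 * (r * r) ≤ (KF n S ∩ Av).card := by
      intro S hS
      have h1 := hH S (Finset.mem_filter.1 hS).1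
      have h2 : (KF n S).card ≤ (KF n S ∩ Av).card + (Finset.univ \ Av).card := by
        have hsub : KF n S ⊆ (KF n S ∩ Av) ∪ (Finset.univ \ Av) := by
          intro p hp
          by_cases h : p ∈ Av
          · exact Finset.mem_union_left _ (Finset.mem_inter.2 ⟨hp, h⟩)
          · exact Finset.mem_union_right _ (Finset.mem_sdiff.2 ⟨Finset.mem_univ _, h⟩)
        exact le_trans (Finset.card_le_card hsub) (Finset.card_union_le _ _)
      have h3 : (28 * r) * (28 * r) = 784 * (r * r) := by ring
      omega
    have hAvne : Av.Nonempty := by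
      rw [← Finset.card_pos]
      have h1 : (Finset.univ : Finset (Fin (n + 1) × Fin n)).card =
          Av.card + (Finset.univ \ Av).card := by
        rw [Finset.card_sdiff_of_subset (Finset.subset_univ _)]
        have := Finset.card_le_card (Finset.subset_univ Av)
        omega
      have h2 : (Finset.univ : Finset (Fin (n + 1) × Fin n)).card = (n + 1) * n := by simp
      have h3 : 28560 * (r * r) ≤ (n + 1) * n + 168 * r + 0 := by
        have : n = 169 * r - 1 := by omega
        rw [hn]
        have h4 : 169 * r * n + 169 * r = 28561 * (r * r) := by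
          have : 169 * r * n + 169 * r = 169 * r * (n + 1) := by ring
          rw [this, hn]; ring
        have h5 : r ≤ r * r := Nat.le_mul_of_pos_right _ (by omega)
        omega
      have h5 : r ≤ r * r := Nat.le_mul_of_pos_right _ (by omega)
      have h6 : 1 ≤ r * r := by omega
      omega
    obtain ⟨p, hp, hpc⟩ : ∃ p ∈ Av, H'.card ≤ 100 * (H'.filter (fun S => p ∈ KF n S)).card := by
      by_contra hc
      push Not at hc
      have hsum : ∑ S ∈ H', (KF n S ∩ Av).card =
          ∑ p ∈ Av, (H'.filter (fun S => p ∈ KF n S)).card := by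
        have e1 : ∀ S ∈ H', (KF n S ∩ Av).card = ∑ p ∈ Av, if p ∈ KF n S then 1 else 0 := by
          intro S _
          rw [← Finset.card_filter]
          congr 1
          ext p
          simp only [Finset.mem_inter, Finset.mem_filter]
          tauto
        rw [Finset.sum_congr rfl e1, Finset.sum_comm]
        apply Finset.sum_congr rfl
        intro p _
        rw [← Finset.card_filter]
      have hlow : 446 * (r * r) * H'.card ≤ ∑ S ∈ H', (KF n S ∩ Av).card := by
        calc 446 * (r * r) * H'.card = ∑ _S ∈ H', 446 * (r * r) := by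
              rw [Finset.sum_const, smul_eq_mul]; ring
          _ ≤ _ := Finset.sum_le_sum hK
      have hup : 100 * ∑ p ∈ Av, (H'.filter (fun S => p ∈ KF n S)).card < Av.card * H'.card := by
        rw [Finset.mul_sum]
        calc ∑ p ∈ Av, 100 * (H'.filter (fun S => p ∈ KF n S)).card
            < ∑ _p ∈ Av, H'.card := Finset.sum_lt_sum_of_nonempty hAvne hc
          _ = Av.card * H'.card := by rw [Finset.sum_const, smul_eq_mul]
      have h1 : Av.card * H'.card ≤ 28561 * (r * r) * H'.card := Nat.mul_le_mul_right _ hAvcard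
      rw [hsum] at hlow
      have h2 : 100 * (446 * (r * r) * H'.card) < 28561 * (r * r) * H'.card := by
        calc 100 * (446 * (r * r) * H'.card)
            ≤ 100 * ∑ p ∈ Av, (H'.filter (fun S => p ∈ KF n S)).card := Nat.mul_le_mul_left _ hlow
          _ < Av.card * H'.card := hup
          _ ≤ _ := h1
      have h3 : 28561 * (r * r) * H'.card ≤ 100 * (446 * (r * r) * H'.card) := by
        have : 100 * (446 * (r * r) * H'.card) = 44600 * (r * r * H'.card) := by ring
        rw [this]
        have : 28561 * (r * r) * H'.card = 28561 * (r * r * H'.card) := by ring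
        rw [this]
        exact Nat.mul_le_mul_right _ (by norm_num)
      omega
    have hpρ : p.1 ∉ rows ρ ∧ p.2 ∉ cols ρ := (Finset.mem_filter.1 hp).2
    have hpn : p ∉ ρ := fun h => hpρ.1 (Finset.mem_image.2 ⟨p, h, rfl⟩)
    refine ⟨insert p ρ, ?_, ?_, ?_⟩
    · constructor
      · intro a ha b hb hab
        rcases Finset.mem_insert.1 ha with h1 | h1 <;> rcases Finset.mem_insert.1 hb with h2 | h2
        · rw [h1, h2]
        · exact absurd (show p.1 ∈ rows ρ from Finset.mem_image.2 ⟨b, h2, by rw [← hab, h1]⟩) hpρ.1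
        · exact absurd (show p.1 ∈ rows ρ from Finset.mem_image.2 ⟨a, h1, by rw [hab, h2]⟩) hpρ.1
        · exact hρ.1 a h1 b h2 hab
      · intro a ha b hb hab
        rcases Finset.mem_insert.1 ha with h1 | h1 <;> rcases Finset.mem_insert.1 hb with h2 | h2
        · rw [h1, h2]
        · exact absurd (show p.2 ∈ cols ρ from Finset.mem_image.2 ⟨b, h2, by rw [← hab, h1]⟩) hpρ.2
        · exact absurd (show p.2 ∈ cols ρ from Finset.mem_image.2 ⟨a, h1, by rw [hab, h2]⟩) hpρ.2
        · exact hρ.2 a h1 b h2 hab
    · rw [Finset.card_insert_of_notMem hpn, hcard]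
    · have e1 : H.filter (fun S => ∀ q ∈ insert p ρ, q ∉ KF n S) =
          H' \ H'.filter (fun S => p ∈ KF n S) := by
        ext S
        simp only [hH', Finset.mem_filter, Finset.mem_sdiff, Finset.mem_insert, forall_eq_or_imp]
        tauto
      have e2 : (H' \ H'.filter (fun S => p ∈ KF n S)).card =
          H'.card - (H'.filter (fun S => p ∈ KF n S)).card := by
        rw [Finset.card_sdiff_of_subset (Finset.filter_subset _ _)]
      rw [e1, e2]
      have e3 : 100 * (H'.card - (H'.filter (fun S => p ∈ KF n S)).card) ≤ 99 * H'.card := by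
        omega
      calc 100 ^ (m + 1) * (H'.card - (H'.filter (fun S => p ∈ KF n S)).card)
          = 100 ^ m * (100 * (H'.card - (H'.filter (fun S => p ∈ KF n S)).card)) := by ring
        _ ≤ 100 ^ m * (99 * H'.card) := Nat.mul_le_mul_left _ e3
        _ = 99 * (100 ^ m * H'.card) := by ring
        _ ≤ 99 * (99 ^ m * H.card) := Nat.mul_le_mul_left _ hle
        _ = 99 ^ (m + 1) * H.card := by ring

lemma rows_card {ρ : Finset (Fin (n + 1) × Fin n)} (hρ : IsMatching ρ) :
    (rows ρ).card = ρ.card := by
  apply Finset.card_image_of_injOn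
  intro a ha b hb hab
  exact hρ.1 a ha b hb hab

/-- **The lower bound.** Every GCNF+permutation refutation of `F_n` with `n + 1 = 16900 q` has at
least `2 ^ q` lines. -/
theorem lower_bound {q : ℕ} (hq : 1 ≤ q) (hn : n + 1 = 16900 * q) {Q : List Cedent}
    (hQ : IsGRefutation (Fml n) Q) : 2 ^ q ≤ Q.length := by
  classical
  by_contra hlt
  push Not at hlt
  set r := 100 * q with hr
  set H : Finset Cedent := Q.toFinset.filter (fun S => (28 * r) * (28 * r) ≤ (KF n S).card)
  have hHcard : H.card < 2 ^ q :=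
    lt_of_le_of_lt (le_trans (Finset.card_filter_le _ _) (List.toFinset_card_le Q)) hlt
  obtain ⟨ρ, hρ, hcard, hle⟩ := greedy (n := n) (r := r) (by omega) (by omega) H
    (fun S hS => (Finset.mem_filter.1 hS).2) r le_rfl
  have hpow : (2 * 99 ^ 100) ^ q ≤ (100 ^ 100) ^ q := Nat.pow_le_pow_left (by norm_num) q
  have h0 : (H.filter (fun S => ∀ p ∈ ρ, p ∉ KF n S)).card = 0 := by
    by_contra hne
    have h1 : 1 ≤ (H.filter (fun S => ∀ p ∈ ρ, p ∉ KF n S)).card := Nat.one_le_iff_ne_zero.2 hne
    have h2 : 100 ^ r ≤ 99 ^ r * H.card :=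
      le_trans (by simpa using Nat.mul_le_mul_left (100 ^ r) h1) hle
    have h3 : 99 ^ r * H.card < 99 ^ r * 2 ^ q :=
      Nat.mul_lt_mul_of_pos_left hHcard (by positivity)
    have h4 : 99 ^ r * 2 ^ q ≤ 100 ^ r := by
      rw [hr, pow_mul, pow_mul, ← mul_pow]
      calc (99 ^ 100 * 2) ^ q = (2 * 99 ^ 100) ^ q := by rw [mul_comm]
        _ ≤ _ := hpow
    omega
  have hkill : ∀ S ∈ Q, (28 * r) * (28 * r) ≤ (KF n S).card → ∃ p ∈ ρ, Killed S p := by
    intro S hS hlarge
    by_contra hc
    push Not at hc
    have : S ∈ H.filter (fun S => ∀ p ∈ ρ, p ∉ KF n S) := by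
      simp only [H, Finset.mem_filter, List.mem_toFinset]
      exact ⟨⟨hS, hlarge⟩, fun p hp h => hc p hp (mem_KF.1 h)⟩
    rw [Finset.card_eq_zero] at h0
    rw [h0] at this
    simp at this
  have hM : (rows ρ).card + 6 * (28 * r) = n + 1 := by
    rw [rows_card hρ, hcard]
    omega
  obtain ⟨hsteps, hlast⟩ := hQ
  have hne : Q ≠ [] := by
    rintro rfl
    simp at hlast
  have hlen : 0 < Q.length := List.length_pos_of_ne_nil hne
  have hfin := (no_big hM (by omega) hsteps hkill (Q.length - 1) (by omega)).2 1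
  rw [rename_one] at hfin
  have hlast' : Q[Q.length - 1] = Fml n := by
    rw [List.getLast?_eq_getElem?] at hlast
    rw [List.getElem?_eq_getElem (by omega)] at hlast
    simpa using hlast
  rw [hlast'] at hfin
  exact hfin (root_big hρ hM (by omega) (by omega))

/-! ## Cutting Planes -/

/-! ### derivations -/

lemma step_mono {Γ : Cedent} {L L' : List Ineq} (h : ∀ J ∈ L, J ∈ L') {I : Ineq}
    (hs : CPStep Γ L I) : CPStep Γ L' I := by
  cases hs with
  | clause C hC => exact .clause C hC
  | nonneg v => exact .nonneg v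
  | leOne v => exact .leOne v
  | add I J hI hJ => exact .add I J (h _ hI) (h _ hJ)
  | mul c I hc hI => exact .mul c I hc (h _ hI)
  | div c a b hc hI => exact .div c a b hc (h _ hI)

def Valid (Γ : Cedent) (L : List Ineq) : Prop :=
  ∀ (k : ℕ) (h : k < L.length), CPStep Γ (L.take k) (L[k])

lemma valid_append {Γ : Cedent} {L L' : List Ineq} (h : Valid Γ L) (h' : Valid Γ L') :
    Valid Γ (L ++ L') := by
  intro k hk
  by_cases hkl : k < L.length
  · rw [List.getElem_append_left hkl, List.take_append_of_le_length hkl.le]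
    exact h k hkl
  · push Not at hkl
    rw [List.getElem_append_right hkl]
    rw [List.length_append] at hk
    refine step_mono ?_ (h' (k - L.length) (by omega))
    intro J hJ
    rw [List.take_append]
    exact List.mem_append_right _ hJ

lemma valid_snoc {Γ : Cedent} {L : List Ineq} (h : Valid Γ L) {I : Ineq} (hI : CPStep Γ L I) :
    Valid Γ (L ++ [I]) := by
  intro k hk
  by_cases hkl : k < L.length
  · rw [List.getElem_append_left hkl, List.take_append_of_le_length hkl.le]
    exact h k hkl
  · push Not at hkl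
    have hk' : k = L.length := by
      rw [List.length_append, List.length_singleton] at hk
      omega
    subst hk'
    rw [List.getElem_append_right le_rfl, List.take_left]
    simpa using hI

/-- all coefficients are bounded by `m`, the support is in `V` -/
def Bd (V : Finset ℕ) (m : ℕ) (I : Ineq) : Prop :=
  I.1.support ⊆ V ∧ (∀ v, (I.1 v).natAbs ≤ m) ∧ I.2.natAbs ≤ m

lemma bd_mono {V : Finset ℕ} {m m' : ℕ} (h : m ≤ m') {I : Ineq} (hI : Bd V m I) : Bd V m' I :=
  ⟨hI.1, fun v => (hI.2.1 v).trans h, hI.2.2.trans h⟩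

lemma bd_add {V : Finset ℕ} {m m' : ℕ} {I J : Ineq} (hI : Bd V m I) (hJ : Bd V m' J) :
    Bd V (m + m') (I + J) := by
  refine ⟨?_, ?_, ?_⟩
  · exact Finsupp.support_add.trans (Finset.union_subset hI.1 hJ.1)
  · intro v
    rw [Prod.fst_add, Finsupp.add_apply]
    exact (Int.natAbs_add_le _ _).trans (Nat.add_le_add (hI.2.1 v) (hJ.2.1 v))
  · rw [Prod.snd_add]
    exact (Int.natAbs_add_le _ _).trans (Nat.add_le_add hI.2.2 hJ.2.2)

/-- `I` has a derivation with at most `N` lines, all lines being bounded -/
def Der (Γ : Cedent) (V : Finset ℕ) (M N : ℕ) (I : Ineq) : Prop :=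
  ∃ L : List Ineq, Valid Γ L ∧ I ∈ L ∧ L.length ≤ N ∧ ∀ J ∈ L, Bd V M J

lemma der_mono {Γ : Cedent} {V : Finset ℕ} {M N N' : ℕ} {I : Ineq} (h : N ≤ N')
    (hI : Der Γ V M N I) : Der Γ V M N' I := by
  obtain ⟨L, h1, h2, h3, h4⟩ := hI
  exact ⟨L, h1, h2, h3.trans h, h4⟩

lemma der_bd {Γ : Cedent} {V : Finset ℕ} {M N : ℕ} {I : Ineq} (hI : Der Γ V M N I) : Bd V M I := by
  obtain ⟨L, h1, h2, h3, h4⟩ := hI
  exact h4 I h2

lemma der_base {Γ : Cedent} {V : Finset ℕ} {M : ℕ} {I : Ineq} (hI : CPStep Γ [] I)
    (hB : Bd V M I) : Der Γ V M 1 I := by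
  refine ⟨[I], ?_, by simp, by simp, by simpa using hB⟩
  have : Valid Γ ([] ++ [I]) := valid_snoc (by intro k hk; simp at hk) hI
  simpa using this

lemma der_add {Γ : Cedent} {V : Finset ℕ} {M N N' : ℕ} {I J : Ineq} (hI : Der Γ V M N I)
    (hJ : Der Γ V M N' J) (hB : Bd V M (I + J)) : Der Γ V M (N + N' + 1) (I + J) := by
  obtain ⟨L, h1, h2, h3, h4⟩ := hI
  obtain ⟨L', h1', h2', h3', h4'⟩ := hJ
  refine ⟨(L ++ L') ++ [I + J], ?_, by simp, ?_, ?_⟩
  · exact valid_snoc (valid_append h1 h1')
      (.add I J (List.mem_append_left _ h2) (List.mem_append_right _ h2'))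
  · simp only [List.length_append, List.length_singleton]; omega
  · intro K hK
    rw [List.mem_append, List.mem_append, List.mem_singleton] at hK
    rcases hK with (hK | hK) | rfl
    · exact h4 K hK
    · exact h4' K hK
    · exact hB

lemma der_mul {Γ : Cedent} {V : Finset ℕ} {M N : ℕ} {I : Ineq} (hI : Der Γ V M N I) {c : ℤ}
    (hc : 0 < c) (hB : Bd V M (c • I)) : Der Γ V M (N + 1) (c • I) := by
  obtain ⟨L, h1, h2, h3, h4⟩ := hI
  refine ⟨L ++ [c • I], ?_, by simp, ?_, ?_⟩
  · have : c • I = (c • I.1, c * I.2) := by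
      ext1 <;> simp
    rw [this]
    exact valid_snoc h1 (.mul c I hc h2)
  · simp only [List.length_append, List.length_singleton]; omega
  · intro K hK
    rw [List.mem_append, List.mem_singleton] at hK
    rcases hK with hK | rfl
    · exact h4 K hK
    · exact hB

lemma der_div {Γ : Cedent} {V : Finset ℕ} {M N : ℕ} {c : ℤ} {a : ℕ →₀ ℤ} {b b' : ℤ}
    (hI : Der Γ V M N (c • a, b)) (hc : 0 < c) (hb : ⌈(b : ℚ) / c⌉ = b') (hB : Bd V M (a, b')) :
    Der Γ V M (N + 1) (a, b') := by
  obtain ⟨L, h1, h2, h3, h4⟩ := hI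
  refine ⟨L ++ [(a, b')], ?_, by simp, ?_, ?_⟩
  · rw [← hb]
    exact valid_snoc h1 (.div c a b hc h2)
  · simp only [List.length_append, List.length_singleton]; omega
  · intro K hK
    rw [List.mem_append, List.mem_singleton] at hK
    rcases hK with hK | rfl
    · exact h4 K hK
    · exact hB

/-- sums of derivable inequalities -/
lemma der_sum {Γ : Cedent} {V : Finset ℕ} {M N N' m₀ : ℕ} {I : Ineq} (hI : Der Γ V M N I)
    (hI0 : Bd V m₀ I) {ι : Type*} [DecidableEq ι] (s : Finset ι) (f : ι → Ineq)
    (hf : ∀ k ∈ s, Der Γ V M N' (f k)) (hf1 : ∀ k ∈ s, Bd V 1 (f k)) (hM : m₀ + s.card ≤ M) :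
    Der Γ V M (N + s.card * (N' + 1)) (I + ∑ k ∈ s, f k) ∧ Bd V (m₀ + s.card) (I + ∑ k ∈ s, f k) := by
  induction s using Finset.induction_on with
  | empty => simpa using ⟨hI, hI0⟩
  | insert a s ha ih =>
    rw [Finset.card_insert_of_notMem ha] at hM
    obtain ⟨h1, h2⟩ := ih (fun k hk => hf k (Finset.mem_insert_of_mem hk))
      (fun k hk => hf1 k (Finset.mem_insert_of_mem hk)) (by omega)
    have e : I + ∑ k ∈ insert a s, f k = (I + ∑ k ∈ s, f k) + f a := by
      rw [Finset.sum_insert ha, add_assoc, add_comm (f a)]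
    have hb := bd_add h2 (hf1 a (Finset.mem_insert_self _ _))
    rw [e, Finset.card_insert_of_notMem ha]
    refine ⟨?_, by rw [← add_assoc]; exact hb⟩
    have := der_add h1 (hf a (Finset.mem_insert_self _ _)) (bd_mono (by omega) hb)
    refine der_mono ?_ this
    rw [Nat.add_mul]
    omega

lemma ineqSize_le {V : Finset ℕ} {M : ℕ} {I : Ineq} (h : Bd V M I) :
    ineqSize I ≤ (1 + M) * (1 + V.card) := by
  have hs : ∀ k : ℕ, Nat.size k ≤ k := fun k => Nat.size_le.2 Nat.lt_two_pow_self
  have h1 : Nat.size I.2.natAbs ≤ M := (hs _).trans h.2.2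
  have h2 : ∑ v ∈ I.1.support, (1 + Nat.size (I.1 v).natAbs) ≤ V.card * (1 + M) := by
    calc ∑ v ∈ I.1.support, (1 + Nat.size (I.1 v).natAbs)
        ≤ ∑ _v ∈ I.1.support, (1 + M) := by
          apply Finset.sum_le_sum
          intro v _
          have := (hs _).trans (h.2.1 v)
          omega
      _ = I.1.support.card * (1 + M) := by rw [Finset.sum_const, smul_eq_mul]
      _ ≤ _ := Nat.mul_le_mul_right _ (Finset.card_le_card h.1)
  unfold ineqSize
  calc 1 + Nat.size I.2.natAbs + ∑ v ∈ I.1.support, (1 + Nat.size (I.1 v).natAbs)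
      ≤ 1 + M + V.card * (1 + M) := by omega
    _ = _ := by ring

lemma cpSize_le {V : Finset ℕ} {M N : ℕ} {L : List Ineq} (hN : L.length ≤ N)
    (h : ∀ J ∈ L, Bd V M J) : cpSize L ≤ N * ((1 + M) * (1 + V.card)) := by
  have : cpSize L ≤ L.length * ((1 + M) * (1 + V.card)) := by
    unfold cpSize
    calc (L.map ineqSize).sum ≤ (L.map ineqSize).length • ((1 + M) * (1 + V.card)) := by
          apply List.sum_le_card_nsmul
          intro x hx
          obtain ⟨J, hJ, rfl⟩ := List.mem_map.1 hx
          exact ineqSize_le (h J hJ)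
      _ = _ := by simp
  exact this.trans (Nat.mul_le_mul_right _ hN)


/-! ### The Cutting Planes refutation of `F_n` -/

/-- all variables of `F_n` -/
def varsF (n : ℕ) : Finset ℕ :=
  Finset.univ.biUnion fun i : Fin (n + 1) => Finset.univ.biUnion fun j : Fin n =>
    (Finset.range (len n i j + 1)).image (fun t => yv i j t)

lemma mem_varsF {i : Fin (n + 1)} {j : Fin n} {t : ℕ} (ht : t ≤ len n i j) :
    yv i j t ∈ varsF n := by
  simp only [varsF, Finset.mem_biUnion, Finset.mem_univ, true_and, Finset.mem_image,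
    Finset.mem_range]
  exact ⟨i, j, t, by omega, rfl⟩

lemma len_lt (i : Fin (n + 1)) (j : Fin n) : len n i j < (n + 1) * n := by
  unfold len
  have h1 := i.2
  have h2 := j.2
  have h3 : i.val * n ≤ n * n := Nat.mul_le_mul_right _ (by omega)
  rw [Nat.add_mul]
  omega

lemma card_varsF (n : ℕ) : (varsF n).card ≤ (n + 1) ^ 4 := by
  unfold varsF
  calc _ ≤ ∑ i : Fin (n + 1), _ := Finset.card_biUnion_le
    _ ≤ ∑ i : Fin (n + 1), ∑ j : Fin n, _ := Finset.sum_le_sum (fun i _ => Finset.card_biUnion_le)
    _ ≤ ∑ i : Fin (n + 1), ∑ j : Fin n, (n + 1) * n := by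
        apply Finset.sum_le_sum
        intro i _
        apply Finset.sum_le_sum
        intro j _
        refine Finset.card_image_le.trans ?_
        rw [Finset.card_range]
        exact len_lt i j
    _ = (n + 1) * (n * ((n + 1) * n)) := by simp
    _ ≤ (n + 1) * ((n + 1) * ((n + 1) * (n + 1))) := by gcongr <;> omega
    _ = (n + 1) ^ 4 := by ring

/-- the variable at the end of the chain of `(i, j)` as a linear form -/
noncomputable def zv (n : ℕ) (i : Fin (n + 1)) (j : Fin n) : ℕ →₀ ℤ :=
  Finsupp.single (yv i j (len n i j)) 1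

lemma clauseIneq_pcl (i : Fin (n + 1)) :
    clauseIneq (pcl n i) = (∑ j : Fin n, Finsupp.single (yv i j 0) (1 : ℤ), 1) := by
  unfold clauseIneq pcl
  congr 1
  · rw [Finset.sum_image]
    · simp
    · intro a _ b _ h
      simp only [Prod.mk.injEq, yv_inj, Fin.val_inj, and_true, true_and] at h
      exact h
  · have : (Finset.image (fun j : Fin n => ((yv i j 0, true) : Lit)) Finset.univ).filter
        (fun l => l.2 = false) = ∅ := by
      rw [Finset.filter_eq_empty_iff]
      intro l hl
      obtain ⟨j, _, rfl⟩ := Finset.mem_image.1 hl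
      simp
    rw [this]
    simp

lemma clauseIneq_lcl (i : Fin (n + 1)) (j : Fin n) (t : ℕ) :
    clauseIneq (lcl n i j t) =
      (Finsupp.single (yv i j (t + 1)) (1 : ℤ) - Finsupp.single (yv i j t) (1 : ℤ), 0) := by
  unfold clauseIneq lcl
  have hne : ((yv i j t, false) : Lit) ≠ (yv i j (t + 1), true) := by simp
  congr 1
  · rw [Finset.sum_pair hne]
    simp only [Bool.false_eq_true, if_false, if_true]
    rw [Finsupp.single_neg, add_comm, sub_eq_add_neg]
  · have : (({(yv i j t, false), (yv i j (t + 1), true)} : Clause)).filter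
        (fun l => l.2 = false) = {(yv i j t, false)} := by
      ext l
      simp only [Finset.mem_filter, Finset.mem_insert, Finset.mem_singleton]
      constructor
      · rintro ⟨rfl | rfl, h⟩
        · rfl
        · simp at h
      · rintro rfl
        simp
    rw [this]
    simp

lemma clauseIneq_hcl {i i' : Fin (n + 1)} (hii : i ≠ i') (j : Fin n) :
    clauseIneq (hcl n i i' j) = (-zv n i j - zv n i' j, -1) := by
  unfold clauseIneq hcl zv
  have hne : ((yv i j (len n i j), false) : Lit) ≠ (yv i' j (len n i' j), false) := by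
    simp only [ne_eq, Prod.mk.injEq, yv_inj, Fin.val_inj, and_true]
    intro h
    exact hii h.1
  congr 1
  · rw [Finset.sum_pair hne]
    simp only [Bool.false_eq_true, if_false]
    rw [Finsupp.single_neg, Finsupp.single_neg, sub_eq_add_neg]
  · have : (({(yv i j (len n i j), false), (yv i' j (len n i' j), false)} : Clause)).filter
        (fun l => l.2 = false) = {(yv i j (len n i j), false), (yv i' j (len n i' j), false)} := by
      rw [Finset.filter_eq_self]
      intro l hl
      simp only [Finset.mem_insert, Finset.mem_singleton] at hl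
      rcases hl with rfl | rfl <;> rfl
    rw [this, Finset.card_pair hne]
    simp

/-- bounds for clause inequalities -/
lemma bd_clause {C : Clause} (hC : C ∈ Fml n) : Bd (varsF n) 1 (clauseIneq C) := by
  rcases mem_Fml.1 hC with ⟨i, rfl⟩ | ⟨i, j, t, ht, rfl⟩ | ⟨i, i', j, hne, rfl⟩
  · rw [clauseIneq_pcl]
    refine ⟨?_, ?_, by simp⟩
    · refine Finsupp.support_finsetSum.trans ?_
      intro v hv
      obtain ⟨j, _, hv⟩ := Finset.mem_biUnion.1 hv
      have := Finsupp.support_single_subset hv
      rw [Finset.mem_singleton] at this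
      subst this
      exact mem_varsF (Nat.zero_le _)
    · intro v
      simp only [Finsupp.coe_finsetSum, Finset.sum_apply]
      by_cases hv : ∃ j : Fin n, v = yv i j 0
      · obtain ⟨j, rfl⟩ := hv
        rw [Finset.sum_eq_single j]
        · simp
        · intro b _ hb
          rw [Finsupp.single_apply, if_neg]
          simp only [yv_inj, Fin.val_inj, and_true, true_and]
          exact hb
        · simp
      · rw [Finset.sum_eq_zero]
        · simp
        · intro b _
          rw [Finsupp.single_apply, if_neg]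
          intro h
          exact hv ⟨b, h.symm⟩
  · rw [clauseIneq_lcl]
    refine ⟨?_, ?_, by simp⟩
    · intro v hv
      have := Finsupp.support_sub hv
      rw [Finset.mem_union] at this
      rcases this with h | h
      · have := Finsupp.support_single_subset h
        rw [Finset.mem_singleton] at this
        subst this
        exact mem_varsF ht
      · have := Finsupp.support_single_subset h
        rw [Finset.mem_singleton] at this
        subst this
        exact mem_varsF ht.le
    · intro v
      rw [Finsupp.sub_apply, Finsupp.single_apply, Finsupp.single_apply]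
      split_ifs with h1 h2 <;> simp
  · rw [clauseIneq_hcl hne]
    have hzz : yv i j (len n i j) ≠ yv i' j (len n i' j) := by
      simp only [ne_eq, yv_inj, Fin.val_inj]
      intro h
      exact hne h.1
    refine ⟨?_, ?_, by simp⟩
    · intro v hv
      have := Finsupp.support_sub hv
      rw [Finset.mem_union, Finsupp.support_neg] at this
      rcases this with h | h
      · have := Finsupp.support_single_subset h
        rw [Finset.mem_singleton] at this
        subst this
        exact mem_varsF le_rfl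
      · have := Finsupp.support_single_subset h
        rw [Finset.mem_singleton] at this
        subst this
        exact mem_varsF le_rfl
    · intro v
      rw [Finsupp.sub_apply, Finsupp.neg_apply]
      unfold zv
      rw [Finsupp.single_apply, Finsupp.single_apply]
      split_ifs with h1 h2
      · exact absurd (h1.trans h2.symm) hzz
      all_goals simp

/-- at most one among the first `m` pigeons in hole `j` -/
noncomputable def holeIneq (n m : ℕ) (j : Fin n) : Ineq :=
  (-∑ i ∈ Finset.univ.filter (fun i : Fin (n + 1) => i.val < m), zv n i j, -1)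

lemma bd_hole (m : ℕ) (j : Fin n) : Bd (varsF n) 1 (holeIneq n m j) := by
  refine ⟨?_, ?_, by simp [holeIneq]⟩
  · intro v hv
    unfold holeIneq at hv
    rw [Finsupp.support_neg] at hv
    obtain ⟨i, _, hv⟩ := Finset.mem_biUnion.1 (Finsupp.support_finsetSum hv)
    have := Finsupp.support_single_subset hv
    rw [Finset.mem_singleton] at this
    subst this
    exact mem_varsF le_rfl
  · intro v
    unfold holeIneq
    simp only [Finsupp.neg_apply, Finsupp.coe_finsetSum, Finset.sum_apply, Int.natAbs_neg]
    by_cases hv : ∃ i : Fin (n + 1), v = yv i j (len n i j) ∧ i.val < m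
    · obtain ⟨i, rfl, him⟩ := hv
      rw [Finset.sum_eq_single i]
      · simp [zv]
      · intro b _ hb
        unfold zv
        rw [Finsupp.single_apply, if_neg]
        simp only [yv_inj, Fin.val_inj]
        intro h
        exact hb h.1
      · intro h
        exact absurd (by simpa using him) h
    · rw [Finset.sum_eq_zero]
      · simp
      · intro b hb
        unfold zv
        rw [Finsupp.single_apply, if_neg]
        intro h
        exact hv ⟨b, h.symm, (Finset.mem_filter.1 hb).2⟩

lemma filter_succ {m : ℕ} (hm : m < n + 1) :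
    Finset.univ.filter (fun i : Fin (n + 1) => i.val < m + 1) =
      insert ⟨m, hm⟩ (Finset.univ.filter (fun i : Fin (n + 1) => i.val < m)) := by
  ext i
  simp only [Finset.mem_filter, Finset.mem_univ, true_and, Finset.mem_insert, Fin.ext_iff]
  omega

lemma card_filter_val {m : ℕ} (hm : m ≤ n + 1) :
    (Finset.univ.filter (fun i : Fin (n + 1) => i.val < m)).card = m := by
  have := Fin.card_filter_val_lt (n := n + 1) (m := m)
  simpa [hm] using this

/-- derivation of the hole inequalities -/
lemma der_hole (j : Fin n) {M : ℕ} (hM : 2 * n + 1 ≤ M) :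
    ∀ m, 2 ≤ m → m ≤ n + 1 → Der (Fml n) (varsF n) M (m * (2 * n + 4)) (holeIneq n m j) := by
  intro m hm
  induction m, hm using Nat.le_induction with
  | base =>
    intro hn
    have hne : (⟨0, by omega⟩ : Fin (n + 1)) ≠ ⟨1, by omega⟩ := by simp
    have hmem : hcl n ⟨0, by omega⟩ ⟨1, by omega⟩ j ∈ Fml n :=
      mem_Fml.2 (Or.inr (Or.inr ⟨_, _, j, hne, rfl⟩))
    have h := der_base (V := varsF n) (M := M) (CPStep.clause (L := []) _ hmem)
      (bd_mono (by omega) (bd_clause hmem))
    have e : clauseIneq (hcl n ⟨0, by omega⟩ ⟨1, by omega⟩ j) = holeIneq n 2 j := by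
      rw [clauseIneq_hcl hne]
      unfold holeIneq
      have e2 : Finset.univ.filter (fun i : Fin (n + 1) => i.val < 2) =
          {⟨0, by omega⟩, ⟨1, by omega⟩} := by
        ext i
        simp only [Finset.mem_filter, Finset.mem_univ, true_and, Finset.mem_insert,
          Finset.mem_singleton, Fin.ext_iff]
        omega
      rw [e2, Finset.sum_pair hne]
      congr 1
      abel
    rw [e] at h
    exact der_mono (by omega) h
  | succ m hm ih =>
    intro hmn
    have ih' := ih (by omega)
    have hc : (0 : ℤ) < (m : ℤ) - 1 := by omega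
    -- multiply
    have hb1 : Bd (varsF n) (m - 1) (((m : ℤ) - 1) • holeIneq n m j) := by
      have hb := bd_hole (n := n) m j
      refine ⟨?_, ?_, ?_⟩
      · exact (Finsupp.support_smul).trans hb.1
      · intro v
        rw [Prod.smul_fst, Finsupp.smul_apply, smul_eq_mul, Int.natAbs_mul]
        have h1 := hb.2.1 v
        have h2 : ((m : ℤ) - 1).natAbs = m - 1 := by omega
        rw [h2]
        calc _ ≤ (m - 1) * 1 := Nat.mul_le_mul_left _ h1
          _ = _ := by ring
      · rw [Prod.smul_snd, smul_eq_mul, Int.natAbs_mul]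
        have h1 := hb.2.2
        have h2 : ((m : ℤ) - 1).natAbs = m - 1 := by omega
        rw [h2]
        calc _ ≤ (m - 1) * 1 := Nat.mul_le_mul_left _ h1
          _ = _ := by ring
    have h1 := der_mul ih' hc (bd_mono (by omega) hb1)
    -- add the pairs
    set s := Finset.univ.filter (fun i : Fin (n + 1) => i.val < m) with hs
    have hscard : s.card = m := card_filter_val (by omega)
    have hfm : ∀ i ∈ s, hcl n i ⟨m, by omega⟩ j ∈ Fml n := by
      intro i hi
      refine mem_Fml.2 (Or.inr (Or.inr ⟨_, _, j, ?_, rfl⟩))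
      intro h
      have := (Finset.mem_filter.1 hi).2
      rw [h] at this
      simp at this
    obtain ⟨h2, _⟩ := der_sum h1 hb1 s (fun i => clauseIneq (hcl n i ⟨m, by omega⟩ j))
      (fun i hi => der_base (CPStep.clause (L := []) _ (hfm i hi))
        (bd_mono (by omega) (bd_clause (hfm i hi))))
      (fun i hi => bd_clause (hfm i hi)) (by omega)
    have e : ((m : ℤ) - 1) • holeIneq n m j +
        ∑ i ∈ s, clauseIneq (hcl n i ⟨m, by omega⟩ j) =
        ((m : ℤ) • (holeIneq n (m + 1) j).1, -(2 * (m : ℤ) - 1)) := by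
      have e1 : ∑ i ∈ s, clauseIneq (hcl n i ⟨m, by omega⟩ j) =
          ∑ i ∈ s, ((-zv n i j - zv n ⟨m, by omega⟩ j, -1) : Ineq) := by
        apply Finset.sum_congr rfl
        intro i hi
        apply clauseIneq_hcl
        intro h
        have := (Finset.mem_filter.1 hi).2
        rw [h] at this
        simp at this
      rw [e1]
      unfold holeIneq
      rw [filter_succ (by omega : m < n + 1), Finset.sum_insert (by simp)]
      rw [← hs]
      ext1
      · rw [Prod.fst_add, Prod.fst_sum, Prod.smul_fst]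
        simp only [Finset.sum_sub_distrib, Finset.sum_neg_distrib, Finset.sum_const, hscard]
        rw [sub_smul, one_smul, smul_neg, smul_neg, smul_add, neg_add, natCast_zsmul]
        rw [natCast_zsmul]
        abel
      · rw [Prod.snd_add, Prod.snd_sum, Prod.smul_snd]
        simp only [Finset.sum_const, hscard, smul_eq_mul, nsmul_eq_mul]
        ring
    rw [e] at h2
    have h3 := der_div h2 (by omega : (0 : ℤ) < m) (b' := -1) ?_ (bd_mono (by omega) (bd_hole (m + 1) j))
    · refine der_mono ?_ h3
      rw [hscard]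
      have : (m + 1) * (2 * n + 4) = m * (2 * n + 4) + 2 * n + 4 := by ring
      omega
    · rw [Int.ceil_eq_iff]
      have hm0 : (0 : ℚ) < (m : ℤ) := by
        have : 0 < m := by omega
        exact_mod_cast this
      have hm2 : (2 : ℚ) ≤ (m : ℤ) := by exact_mod_cast hm
      constructor
      · rw [lt_div_iff₀ hm0]
        push_cast
        push_cast at hm2
        linarith
      · rw [div_le_iff₀ hm0]
        push_cast
        push_cast at hm2
        linarith

/-- the final derivation -/
lemma der_final (hn : 1 ≤ n) :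
    Der (Fml n) (varsF n) (4 * (n + 1) ^ 4) (11 * (n + 1) ^ 4) ((0, 1) : Ineq) := by
  set M := 4 * (n + 1) ^ 4 with hM
  have hx1 : 1 ≤ (n + 1) ^ 4 := Nat.one_le_pow _ _ (by omega)
  have hx2 : n + 1 ≤ (n + 1) ^ 4 := by
    calc n + 1 = (n + 1) ^ 1 := (pow_one _).symm
      _ ≤ _ := Nat.pow_le_pow_right (by omega) (by norm_num)
  have hp : ∀ i : Fin (n + 1), pcl n i ∈ Fml n := fun i => mem_Fml.2 (Or.inl ⟨i, rfl⟩)
  have h0 : Der (Fml n) (varsF n) M 1 (clauseIneq (pcl n 0)) :=
    der_base (CPStep.clause _ (hp 0)) (bd_mono (by omega) (bd_clause (hp 0)))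
  obtain ⟨h1, b1⟩ := der_sum h0 (bd_clause (hp 0)) (Finset.univ.erase (0 : Fin (n + 1)))
    (fun i => clauseIneq (pcl n i))
    (fun i _ => der_base (CPStep.clause (L := []) _ (hp i)) (bd_mono (by omega) (bd_clause (hp i))))
    (fun i _ => bd_clause (hp i)) (by
      rw [Finset.card_erase_of_mem (Finset.mem_univ _), Finset.card_univ, Fintype.card_fin]
      omega)
  have c1 : (Finset.univ.erase (0 : Fin (n + 1))).card = n := by
    rw [Finset.card_erase_of_mem (Finset.mem_univ _), Finset.card_univ, Fintype.card_fin]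
    omega
  rw [c1] at h1 b1
  set s2 : Finset (Σ _ : Fin (n + 1) × Fin n, ℕ) :=
    (Finset.univ : Finset (Fin (n + 1) × Fin n)).sigma (fun p => Finset.range (len n p.1 p.2)) with hs2
  have c2 : s2.card ≤ (n + 1) ^ 4 := by
    rw [hs2, Finset.card_sigma]
    calc ∑ p : Fin (n + 1) × Fin n, (Finset.range (len n p.1 p.2)).card
        ≤ ∑ _p : Fin (n + 1) × Fin n, (n + 1) * n := by
          apply Finset.sum_le_sum
          intro p _
          rw [Finset.card_range]
          exact (len_lt _ _).le
      _ = ((n + 1) * n) * ((n + 1) * n) := by simp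
      _ ≤ ((n + 1) * (n + 1)) * ((n + 1) * (n + 1)) := by gcongr <;> omega
      _ = (n + 1) ^ 4 := by ring
  have hl : ∀ x ∈ s2, lcl n x.1.1 x.1.2 x.2 ∈ Fml n := by
    intro x hx
    rw [hs2, Finset.mem_sigma, Finset.mem_range] at hx
    exact mem_Fml.2 (Or.inr (Or.inl ⟨_, _, _, hx.2, rfl⟩))
  obtain ⟨h2, b2⟩ := der_sum h1 b1 s2 (fun x => clauseIneq (lcl n x.1.1 x.1.2 x.2))
    (fun x hx => der_base (CPStep.clause (L := []) _ (hl x hx))
      (bd_mono (by omega) (bd_clause (hl x hx))))
    (fun x hx => bd_clause (hl x hx)) (by omega)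
  obtain ⟨h3, b3⟩ := der_sum h2 b2 (Finset.univ : Finset (Fin n)) (fun j => holeIneq n (n + 1) j)
    (fun j _ => der_hole j (by omega) (n + 1) (by omega) le_rfl)
    (fun j _ => bd_hole (n + 1) j) (by rw [Finset.card_univ, Fintype.card_fin]; omega)
  have e : clauseIneq (pcl n 0) + ∑ i ∈ Finset.univ.erase (0 : Fin (n + 1)), clauseIneq (pcl n i) +
      ∑ x ∈ s2, clauseIneq (lcl n x.1.1 x.1.2 x.2) + ∑ j : Fin n, holeIneq n (n + 1) j =
      ((0, 1) : Ineq) := by
    rw [Finset.add_sum_erase _ (fun i => clauseIneq (pcl n i)) (Finset.mem_univ 0)]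
    rw [hs2, Finset.sum_sigma]
    simp only [clauseIneq_pcl, clauseIneq_lcl]
    ext1
    · simp only [Prod.fst_add, Prod.fst_sum]
      have e1 : ∀ p : Fin (n + 1) × Fin n, ∑ t ∈ Finset.range (len n p.1 p.2),
          (Finsupp.single (yv p.1 p.2 (t + 1)) (1 : ℤ) - Finsupp.single (yv p.1 p.2 t) (1 : ℤ)) =
          zv n p.1 p.2 - Finsupp.single (yv p.1 p.2 0) (1 : ℤ) := by
        intro p
        exact Finset.sum_range_sub (fun t => Finsupp.single (yv p.1 p.2 t) (1 : ℤ)) _
      rw [Finset.sum_congr rfl (fun p _ => e1 p)]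
      unfold holeIneq
      have e2 : Finset.univ.filter (fun i : Fin (n + 1) => i.val < n + 1) = Finset.univ := by
        rw [Finset.filter_eq_self]
        intro i _
        exact i.2
      simp only [e2, Finset.sum_sub_distrib, Finset.sum_neg_distrib, Fintype.sum_prod_type]
      rw [Finset.sum_comm (f := fun (x : Fin n) (y : Fin (n + 1)) => zv n y x)]
      abel
    · simp only [Prod.snd_add, Prod.snd_sum, holeIneq]
      simp
  rw [e] at h3
  refine der_mono ?_ h3
  rw [Finset.card_univ, Fintype.card_fin]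
  have hx3 : n * ((n + 1) * (2 * n + 4) + 1) ≤ 7 * (n + 1) ^ 4 := by
    have : (n + 1) ^ 4 = (n + 1) * ((n + 1) * ((n + 1) * (n + 1))) := by ring
    rw [this]
    nlinarith [sq_nonneg n, Nat.zero_le n]
  have : s2.card * (1 + 1) ≤ (n + 1) ^ 4 * 2 := by omega
  omega

/-- **The upper bound.** -/
theorem cp_upper (hn : 1 ≤ n) :
    ∃ R : List Ineq, IsCPRefutation (Fml n) R ∧ cpSize R ≤ 120 * (n + 1) ^ 12 := by
  obtain ⟨L, h1, h2, h3, h4⟩ := der_final hn
  have hx1 : 1 ≤ (n + 1) ^ 4 := Nat.one_le_pow _ _ (by omega)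
  have hV := card_varsF n
  have hone : ((1 : ℤ) • (0 : ℕ →₀ ℤ), (1 : ℤ) * 1) = ((0, 1) : Ineq) := by simp
  refine ⟨L ++ [(0, 1)], ⟨?_, by simp⟩, ?_⟩
  · rw [← hone]
    exact valid_snoc h1 (.mul 1 (0, 1) (by norm_num) h2)
  · have hle : cpSize (L ++ [(0, 1)]) ≤ (11 * (n + 1) ^ 4 + 1) *
        ((1 + 4 * (n + 1) ^ 4) * (1 + (varsF n).card)) := by
      apply cpSize_le
      · simp only [List.length_append, List.length_singleton]
        omega
      · intro J hJ
        rw [List.mem_append, List.mem_singleton] at hJ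
        rcases hJ with hJ | rfl
        · exact h4 J hJ
        · exact h4 _ h2
    refine hle.trans ?_
    set x := (n + 1) ^ 4 with hx
    calc (11 * x + 1) * ((1 + 4 * x) * (1 + (varsF n).card))
        ≤ (12 * x) * ((5 * x) * (2 * x)) := by gcongr <;> omega
      _ = 120 * (x * x * x) := by ring
      _ = 120 * (n + 1) ^ 12 := by rw [hx]; ring


/-! ### Completeness of GCNF -/

lemma gstep_mono {L L' : List Cedent} (h : ∀ T ∈ L, T ∈ L') {S : Cedent} (hs : GStep L S) :
    GStep L' S := by
  cases hs with
  | initial p => exact .initial p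
  | structural Γ Δ hΓ => exact .structural Γ Δ (h _ hΓ)
  | logical l Γ Θ 𝒞 h0 h1 => exact .logical l Γ Θ 𝒞 (h _ h0) (h _ h1)
  | permutation σ Γ hΓ => exact .permutation σ Γ (h _ hΓ)

def GValid (Q : List Cedent) : Prop := ∀ (k : ℕ) (h : k < Q.length), GStep (Q.take k) (Q[k])

lemma gvalid_append {L L' : List Cedent} (h : GValid L) (h' : GValid L') :
    GValid (L ++ L') := by
  intro k hk
  by_cases hkl : k < L.length
  · rw [List.getElem_append_left hkl, List.take_append_of_le_length hkl.le]
    exact h k hkl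
  · push Not at hkl
    rw [List.getElem_append_right hkl]
    rw [List.length_append] at hk
    refine gstep_mono ?_ (h' (k - L.length) (by omega))
    intro J hJ
    rw [List.take_append]
    exact List.mem_append_right _ hJ

lemma gvalid_snoc {L : List Cedent} (h : GValid L) {S : Cedent} (hS : GStep L S) :
    GValid (L ++ [S]) := by
  intro k hk
  by_cases hkl : k < L.length
  · rw [List.getElem_append_left hkl, List.take_append_of_le_length hkl.le]
    exact h k hkl
  · push Not at hkl
    have hk' : k = L.length := by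
      rw [List.length_append, List.length_singleton] at hk
      omega
    subst hk'
    rw [List.getElem_append_right le_rfl, List.take_left]
    simpa using hS

/-- refutable cedents -/
def GDer (S : Cedent) : Prop := ∃ Q : List Cedent, IsGRefutation S Q

lemma gder_initial (p : ℕ) : GDer {{(p, true)}, {(p, false)}} := by
  refine ⟨[{{(p, true)}, {(p, false)}}], ?_, by simp⟩
  have : GValid ([] ++ [({{(p, true)}, {(p, false)}} : Cedent)]) :=
    gvalid_snoc (by intro k hk; simp at hk) (.initial p)
  exact this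

lemma mem_of_ref {S : Cedent} {Q : List Cedent} (h : IsGRefutation S Q) : S ∈ Q :=
  List.mem_of_getLast? h.2

lemma gder_struct {S T : Cedent} (h : GDer S) (hST : S ⊆ T) : GDer T := by
  obtain ⟨Q, hQ⟩ := h
  refine ⟨Q ++ [T], ?_, by simp⟩
  apply gvalid_snoc hQ.1
  have : S ∪ T = T := Finset.union_eq_right.2 hST
  rw [← this]
  exact .structural S T (mem_of_ref hQ)

lemma gder_logical (l : Lit) {Γ Θ 𝒞 : Cedent} (h0 : GDer (Γ ∪ 𝒞)) (h1 : GDer (Θ ∪ {{l}})) :
    GDer (Γ ∪ Θ ∪ 𝒞.image (fun C => C ∪ {l})) := by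
  obtain ⟨Q, hQ⟩ := h0
  obtain ⟨Q', hQ'⟩ := h1
  refine ⟨(Q ++ Q') ++ [Γ ∪ Θ ∪ 𝒞.image (fun C => C ∪ {l})], ?_, by simp⟩
  exact gvalid_snoc (gvalid_append hQ.1 hQ'.1)
    (.logical l Γ Θ 𝒞 (List.mem_append_left _ (mem_of_ref hQ))
      (List.mem_append_right _ (mem_of_ref hQ')))

/-- clauses of `S` not containing the literal `m` -/
def without (S : Cedent) (m : Lit) : Cedent := S.filter (fun C => m ∉ C)

/-- restriction of `S` making `l` false and `m` (its negation) true -/
def restr (S : Cedent) (l m : Lit) : Cedent := (without S m).image (fun C => C.erase l)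

lemma gder_lift {S : Cedent} (l m : Lit) {Θ : Cedent} (h : GDer (restr S l m))
    (h1 : GDer (Θ ∪ {{l}})) : GDer (without S m ∪ Θ) := by
  have e : restr S l m = (without S m).filter (fun C => l ∉ C) ∪
      ((without S m).filter (fun C => l ∈ C)).image (fun C => C.erase l) := by
    ext D
    simp only [restr, Finset.mem_image, Finset.mem_union, Finset.mem_filter]
    constructor
    · rintro ⟨C, hC, rfl⟩
      by_cases hl : l ∈ C
      · exact Or.inr ⟨C, ⟨hC, hl⟩, rfl⟩
      · rw [Finset.erase_eq_of_notMem hl]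
        exact Or.inl ⟨hC, hl⟩
    · rintro (⟨hC, hl⟩ | ⟨C, ⟨hC, hl⟩, rfl⟩)
      · exact ⟨D, hC, Finset.erase_eq_of_notMem hl⟩
      · exact ⟨C, hC, rfl⟩
  rw [e] at h
  refine gder_struct (gder_logical l h h1) ?_
  intro D hD
  simp only [Finset.mem_union, Finset.mem_filter, Finset.mem_image] at hD ⊢
  rcases hD with (hD | hD) | ⟨C, ⟨C', ⟨hC', hl⟩, rfl⟩, rfl⟩
  · exact Or.inl hD.1
  · exact Or.inr hD
  · left
    have : C'.erase l ∪ {l} = C' := by
      rw [Finset.union_comm, ← Finset.insert_eq, Finset.insert_erase hl]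
    rw [this]
    exact hC'

def varsOf (S : Cedent) : Finset ℕ := S.biUnion (fun C => C.image Prod.fst)

lemma uns_restr {S : Cedent} (hS : Uns S) (p : ℕ) (b : Bool) (hl : ({(p, b)} : Clause) ∉ S) :
    Uns (restr S (p, b) (p, !b)) := by
  intro β
  obtain ⟨D, hD, hne, hfal⟩ := hS (fun x => if x = p then b = false else β x)
  have hm : ((p, !b) : Lit) ∉ D := by
    intro h
    have := hfal _ h
    cases b <;> simp at this
  refine ⟨D.erase (p, b), ?_, ?_, ?_⟩
  · exact Finset.mem_image.2 ⟨D, Finset.mem_filter.2 ⟨hD, hm⟩, rfl⟩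
  · intro h
    rw [Finset.erase_eq_empty_iff] at h
    rcases h with h | h
    · exact hne h
    · exact hl (h ▸ hD)
  · intro m hm'
    rw [Finset.mem_erase] at hm'
    have h1 := hfal m hm'.2
    obtain ⟨x, c⟩ := m
    have hx : x ≠ p := by
      rintro rfl
      have hcb : c ≠ b := fun h => hm'.1 (by rw [h])
      have : c = !b := by cases c <;> cases b <;> simp_all
      rw [this] at hm'
      exact hm hm'.2
    cases c <;> simpa [hx] using h1

lemma varsOf_restr {S : Cedent} (p : ℕ) (b : Bool) :
    varsOf (restr S (p, b) (p, !b)) ⊆ (varsOf S).erase p := by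
  intro x hx
  simp only [varsOf, restr, without, Finset.mem_biUnion, Finset.mem_image, Finset.mem_filter] at hx
  obtain ⟨D, ⟨C, ⟨hC, hm⟩, rfl⟩, ⟨y, c⟩, hl, rfl⟩ := hx
  rw [Finset.mem_erase] at hl
  rw [Finset.mem_erase]
  refine ⟨?_, ?_⟩
  · rintro rfl
    have hcb : c ≠ b := fun h => hl.1 (by rw [h])
    have : c = !b := by cases c <;> cases b <;> simp_all
    rw [this] at hl
    exact hm hl.2
  · simp only [varsOf, Finset.mem_biUnion, Finset.mem_image]
    exact ⟨C, hC, (y, c), hl.2, rfl⟩

/-- completeness of GCNF (even without the permutation rule) -/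
theorem complete : ∀ (m : ℕ) (S : Cedent), (varsOf S).card ≤ m → Uns S → GDer S := by
  intro m
  induction m with
  | zero =>
    intro S hm hS
    obtain ⟨D, hD, hne, _⟩ := hS (fun _ => True)
    obtain ⟨l, hl⟩ := Finset.nonempty_iff_ne_empty.2 hne
    have : l.1 ∈ varsOf S := by
      simp only [varsOf, Finset.mem_biUnion, Finset.mem_image]
      exact ⟨D, hD, l, hl, rfl⟩
    have := Finset.card_pos.2 ⟨_, this⟩
    omega
  | succ m ih =>
    intro S hm hS
    obtain ⟨D, hD, hne, _⟩ := hS (fun _ => True)
    obtain ⟨⟨p, b⟩, hl⟩ := Finset.nonempty_iff_ne_empty.2 hne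
    have hp : p ∈ varsOf S := by
      simp only [varsOf, Finset.mem_biUnion, Finset.mem_image]
      exact ⟨D, hD, (p, b), hl, rfl⟩
    have hcard : ((varsOf S).erase p).card ≤ m := by
      rw [Finset.card_erase_of_mem hp]
      omega
    have hder : ∀ c : Bool, ({(p, c)} : Clause) ∉ S → GDer (restr S (p, c) (p, !c)) := by
      intro c hc
      exact ih _ ((Finset.card_le_card (varsOf_restr p c)).trans hcard) (uns_restr hS p c hc)
    have hwithout : ∀ m : Lit, without S m ⊆ S := fun m => Finset.filter_subset _ _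
    by_cases h1 : ({(p, true)} : Clause) ∈ S <;> by_cases h2 : ({(p, false)} : Clause) ∈ S
    · refine gder_struct (gder_initial p) ?_
      intro C hC
      simp only [Finset.mem_insert, Finset.mem_singleton] at hC
      rcases hC with rfl | rfl
      · exact h1
      · exact h2
    · -- `{p}` is in `S`, `{¬p}` is not
      have h3 : GDer ({{(p, true)}} ∪ {{(p, false)}}) := by
        have := gder_initial p
        rwa [Finset.insert_eq] at this
      refine gder_struct (gder_lift (p, false) (p, true) (hder false h2) h3) ?_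
      apply Finset.union_subset (hwithout _)
      simpa using h1
    · have h3 : GDer ({{(p, false)}} ∪ {{(p, true)}}) := by
        have := gder_initial p
        rwa [Finset.insert_eq, Finset.union_comm] at this
      refine gder_struct (gder_lift (p, true) (p, false) (hder true h1) h3) ?_
      apply Finset.union_subset (hwithout _)
      simpa using h2
    · have h3 : GDer ({{(p, true)}} ∪ {{(p, false)}}) := by
        have := gder_initial p
        rwa [Finset.insert_eq] at this
      have h4 := gder_lift (p, false) (p, true) (hder false h2) h3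
      refine gder_struct (gder_lift (p, true) (p, false) (hder true h1) h4) ?_
      exact Finset.union_subset (hwithout _) (hwithout _)

/-! ## The final result -/

lemma length_le_gSize (Q : List Cedent) : Q.length ≤ gSize Q := by
  unfold gSize
  induction Q with
  | nil => simp
  | cons a Q ih =>
    simp only [List.length_cons, List.map_cons, List.sum_cons]
    have : 1 ≤ cedentSize a := by unfold cedentSize; omega
    omega

lemma card_clause {n : ℕ} {C : Clause} (hC : C ∈ Fml n) : C.card ≤ n + 2 := by
  rcases mem_Fml.1 hC with ⟨i, rfl⟩ | ⟨i, j, t, ht, rfl⟩ | ⟨i, i', j, hne, rfl⟩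
  · unfold pcl
    refine Finset.card_image_le.trans ?_
    rw [Finset.card_univ, Fintype.card_fin]
    omega
  · exact Finset.card_le_two.trans (by omega)
  · exact Finset.card_le_two.trans (by omega)

lemma cedentSize_Fml (n : ℕ) : cedentSize (Fml n) ≤ 10 * (n + 1) ^ 5 := by
  have hcard : (Fml n).card ≤ 3 * (n + 1) ^ 4 := by
    unfold Fml
    refine (Finset.card_union_le _ _).trans ?_
    have h1 : (Finset.univ.image (pcl n)).card ≤ n + 1 := by
      refine Finset.card_image_le.trans ?_
      rw [Finset.card_univ, Fintype.card_fin]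
    have h2 : (Finset.univ.biUnion fun i : Fin (n + 1) => Finset.univ.biUnion fun j : Fin n =>
        (Finset.range (len n i j)).image (lcl n i j)).card ≤ (n + 1) ^ 4 := by
      calc _ ≤ ∑ i : Fin (n + 1), _ := Finset.card_biUnion_le
        _ ≤ ∑ i : Fin (n + 1), ∑ j : Fin n, _ :=
            Finset.sum_le_sum (fun i _ => Finset.card_biUnion_le)
        _ ≤ ∑ i : Fin (n + 1), ∑ j : Fin n, (n + 1) * n := by
            apply Finset.sum_le_sum
            intro i _
            apply Finset.sum_le_sum
            intro j _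
            refine Finset.card_image_le.trans ?_
            rw [Finset.card_range]
            exact (len_lt i j).le
        _ = (n + 1) * (n * ((n + 1) * n)) := by simp
        _ ≤ (n + 1) * ((n + 1) * ((n + 1) * (n + 1))) := by gcongr <;> omega
        _ = (n + 1) ^ 4 := by ring
    have h3 : (Finset.univ.biUnion fun j : Fin n => Finset.univ.biUnion fun i : Fin (n + 1) =>
        (Finset.univ.filter (fun i' : Fin (n + 1) => i < i')).image (fun i' => hcl n i i' j)).card
        ≤ n * ((n + 1) * (n + 1)) := by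
      calc _ ≤ ∑ j : Fin n, _ := Finset.card_biUnion_le
        _ ≤ ∑ j : Fin n, ∑ i : Fin (n + 1), _ :=
            Finset.sum_le_sum (fun i _ => Finset.card_biUnion_le)
        _ ≤ ∑ j : Fin n, ∑ i : Fin (n + 1), (n + 1) := by
            apply Finset.sum_le_sum
            intro i _
            apply Finset.sum_le_sum
            intro j _
            refine Finset.card_image_le.trans ?_
            refine (Finset.card_le_card (Finset.filter_subset _ _)).trans ?_
            rw [Finset.card_univ, Fintype.card_fin]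
        _ = n * ((n + 1) * (n + 1)) := by simp
    have h4 := Finset.card_union_le (Finset.univ.image (pcl n))
      (Finset.univ.biUnion fun i : Fin (n + 1) => Finset.univ.biUnion fun j : Fin n =>
        (Finset.range (len n i j)).image (lcl n i j))
    have h5 : n + 1 ≤ (n + 1) ^ 4 := by
      calc n + 1 = (n + 1) ^ 1 := (pow_one _).symm
        _ ≤ _ := Nat.pow_le_pow_right (by omega) (by norm_num)
    have h6 : n * ((n + 1) * (n + 1)) ≤ (n + 1) ^ 4 := by
      calc n * ((n + 1) * (n + 1)) ≤ (n + 1) * ((n + 1) * (n + 1)) := by gcongr; omega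
        _ = (n + 1) ^ 3 := by ring
        _ ≤ _ := Nat.pow_le_pow_right (by omega) (by norm_num)
    omega
  unfold cedentSize
  calc 1 + ∑ C ∈ Fml n, (1 + C.card) ≤ 1 + ∑ _C ∈ Fml n, (n + 3) := by
        apply Nat.add_le_add_left
        apply Finset.sum_le_sum
        intro C hC
        have := card_clause hC
        omega
    _ = 1 + (Fml n).card * (n + 3) := by rw [Finset.sum_const, smul_eq_mul]
    _ ≤ 1 + (3 * (n + 1) ^ 4) * (3 * (n + 1)) := by gcongr; omega
    _ = 1 + 9 * (n + 1) ^ 5 := by ring
    _ ≤ 10 * (n + 1) ^ 5 := by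
        have : 1 ≤ (n + 1) ^ 5 := Nat.one_le_pow _ _ (by omega)
        omega

lemma pair_le {a b m : ℕ} (ha : a ≤ m) (hb : b ≤ m) : Nat.pair a b ≤ (m + 1) ^ 2 := by
  have h := Nat.pair_lt_max_add_one_sq a b
  have h2 : max a b + 1 ≤ m + 1 := by omega
  exact h.le.trans (Nat.pow_le_pow_left h2 2)

/-- the variables of the formula have polynomially bounded indices -/
lemma index_le {n : ℕ} {C : Clause} (hC : C ∈ Fml n) {l : Lit} (hl : l ∈ C) :
    l.1 ≤ 4 * (n + 1) ^ 8 := by
  have key : ∀ (i : Fin (n + 1)) (j : Fin n) (t : ℕ), t ≤ len n i j →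
      yv i j t ≤ 4 * (n + 1) ^ 8 := by
    intro i j t ht
    have hlen := len_lt i j
    have hi := i.2
    have hj := j.2
    have e1 : (n + 1) * n + (n + 1) = (n + 1) * (n + 1) := by ring
    have h1 : Nat.pair j.val t ≤ ((n + 1) * n + 1) ^ 2 := by
      apply pair_le
      · nlinarith
      · omega
    have h2 : ((n + 1) * n + 1) ^ 2 ≤ ((n + 1) * (n + 1)) ^ 2 :=
      Nat.pow_le_pow_left (by omega) 2
    have h3 : ((n + 1) * (n + 1)) ^ 2 = (n + 1) ^ 4 := by ring
    have h4 : n + 1 ≤ (n + 1) ^ 4 := by
      calc n + 1 = (n + 1) ^ 1 := (pow_one _).symm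
        _ ≤ _ := Nat.pow_le_pow_right (by omega) (by norm_num)
    have h5 : yv i j t ≤ ((n + 1) ^ 4 + 1) ^ 2 := by
      unfold yv
      apply pair_le
      · omega
      · omega
    have h6 : ((n + 1) ^ 4 + 1) ^ 2 ≤ (2 * (n + 1) ^ 4) ^ 2 := Nat.pow_le_pow_left (by omega) 2
    have h7 : (2 * (n + 1) ^ 4) ^ 2 = 4 * (n + 1) ^ 8 := by ring
    omega
  rcases mem_Fml.1 hC with ⟨i, rfl⟩ | ⟨i, j, t, ht, rfl⟩ | ⟨i, i', j, hne, rfl⟩
  · obtain ⟨j, rfl⟩ := mem_pcl.1 hl
    exact key i j 0 (Nat.zero_le _)
  · rcases mem_lcl.1 hl with rfl | rfl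
    · exact key i j t ht.le
    · exact key i j (t + 1) ht
  · rcases mem_hcl.1 hl with rfl | rfl
    · exact key i j _ le_rfl
    · exact key i' j _ le_rfl

/-- soundness of the strong form: the formula is unsatisfiable -/
lemma uns_Fml {n : ℕ} (hn : 2 ≤ n) : Uns (Fml n) := by
  intro β
  by_contra hc
  push Not at hc
  have hsat : ∀ D ∈ Fml n, ∃ l ∈ D, Sat β l := by
    intro D hD
    by_cases h : D.Nonempty
    · exact hc D hD h
    · exfalso
      rw [Finset.not_nonempty_iff_eq_empty] at h
      subst h
      rcases mem_Fml.1 hD with ⟨i, h⟩ | ⟨i, j, t, _, h⟩ | ⟨i, i', j, _, h⟩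
      · have : ((yv i (⟨0, by omega⟩ : Fin n) 0, true) : Lit) ∈ pcl n i := mem_pcl.2 ⟨_, rfl⟩
        rw [← h] at this
        simp at this
      · exact absurd h.symm (Finset.insert_ne_empty _ _)
      · exact absurd h.symm (Finset.insert_ne_empty _ _)
  have h1 : ∀ i : Fin (n + 1), ∃ j : Fin n, β (yv i j 0) := by
    intro i
    obtain ⟨l, hl, hs⟩ := hsat _ (mem_Fml.2 (Or.inl ⟨i, rfl⟩))
    obtain ⟨j, rfl⟩ := mem_pcl.1 hl
    exact ⟨j, by simpa using hs⟩
  choose f hf using h1
  have h2 : ∀ i t, t ≤ len n i (f i) → β (yv i (f i) t) := by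
    intro i t
    induction t with
    | zero => intro _; exact hf i
    | succ t ih =>
      intro ht
      obtain ⟨l, hl, hs⟩ := hsat _ (mem_Fml.2 (Or.inr (Or.inl ⟨i, f i, t, ht, rfl⟩)))
      rcases mem_lcl.1 hl with rfl | rfl
      · simp only [sat_false] at hs
        exact absurd (ih (by omega)) hs
      · simpa using hs
  obtain ⟨a, b, hab, hfab⟩ := Fintype.exists_ne_map_eq_of_card_lt f (by simp)
  obtain ⟨l, hl, hs⟩ := hsat _ (mem_Fml.2 (Or.inr (Or.inr ⟨a, b, f a, hab, rfl⟩)))
  rcases mem_hcl.1 hl with rfl | rfl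
  · simp only [sat_false] at hs
    exact hs (h2 a _ le_rfl)
  · simp only [sat_false] at hs
    apply hs
    have := h2 b (len n b (f b)) le_rfl
    rw [← hfab] at this
    exact this

lemma eval_le (p : Polynomial ℕ) (x : ℕ) (hx : 1 ≤ x) :
    p.eval x ≤ (∑ i ∈ Finset.range (p.natDegree + 1), p.coeff i) * x ^ p.natDegree := by
  rw [Polynomial.eval_eq_sum_range, Finset.sum_mul]
  apply Finset.sum_le_sum
  intro i hi
  rw [Finset.mem_range] at hi
  exact Nat.mul_le_mul_left _ (Nat.pow_le_pow_right hx (by omega))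

lemma exists_exp_gt (C k : ℕ) : ∃ q : ℕ, 1 ≤ q ∧ C * q ^ k < 2 ^ q := by
  have h := tendsto_pow_const_div_const_pow_of_one_lt k (by norm_num : (1 : ℝ) < 2)
  have h2 := h.eventually (gt_mem_nhds (show (0 : ℝ) < 1 / (C + 1) by positivity))
  obtain ⟨q, hq1, hq2⟩ := (h2.and (Filter.eventually_ge_atTop 1)).exists
  refine ⟨q, hq2, ?_⟩
  have hpos : (0 : ℝ) < 2 ^ q := by positivity
  rw [div_lt_div_iff₀ hpos (by positivity)] at hq1
  have h3 : ((q : ℝ) ^ k) * (C + 1) < 2 ^ q := by simpa using hq1
  have h4 : (C : ℝ) * (q : ℝ) ^ k < 2 ^ q := by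
    have : (0 : ℝ) ≤ (q : ℝ) ^ k := by positivity
    nlinarith
  exact_mod_cast h4

/-- **GCNF+permutation does not p-simulate Cutting Planes.** There is a constant `c` such that for
every `q ≥ 1` some cedent of size at most `c q ^ 12`, over variables of index at most `c q ^ 12`,
has a Cutting Planes refutation of size at most `c q ^ 12`, while every GCNF+permutation refutation
of it (there is one) contains at least `2 ^ q` cedents. In particular no polynomial bounds the growth of size in a simulation of Cutting Planes by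
GCNF+permutation. -/
theorem result :
    (∃ c : ℕ, ∀ q : ℕ, 1 ≤ q → ∃ Γ : Cedent,
      cedentSize Γ ≤ c * q ^ 12 ∧ (∀ C ∈ Γ, ∀ l ∈ C, l.1 ≤ c * q ^ 12) ∧
      (∃ R : List Ineq, IsCPRefutation Γ R ∧ cpSize R ≤ c * q ^ 12) ∧
      (∃ Q : List Cedent, IsGRefutation Γ Q) ∧
      (∀ Q : List Cedent, IsGRefutation Γ Q → 2 ^ q ≤ Q.length)) ∧
    ¬ PolySimulatesCP := by
  have main : ∃ c : ℕ, 1 ≤ c ∧ ∀ q : ℕ, 1 ≤ q → ∃ Γ : Cedent,
      cedentSize Γ ≤ c * q ^ 12 ∧ (∀ C ∈ Γ, ∀ l ∈ C, l.1 ≤ c * q ^ 12) ∧
      (∃ R : List Ineq, IsCPRefutation Γ R ∧ cpSize R ≤ c * q ^ 12) ∧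
      (∃ Q : List Cedent, IsGRefutation Γ Q) ∧
      (∀ Q : List Cedent, IsGRefutation Γ Q → 2 ^ q ≤ Q.length) := by
    refine ⟨120 * 16900 ^ 12, by norm_num, ?_⟩
    intro q hq
    have hn : (16900 * q - 1) + 1 = 16900 * q := by omega
    refine ⟨Fml (16900 * q - 1), ?_, ?_, ?_, ?_, ?_⟩
    · refine (cedentSize_Fml _).trans ?_
      rw [hn]
      calc 10 * (16900 * q) ^ 5 ≤ 120 * (16900 * q) ^ 12 := by
            gcongr <;> omega
        _ = _ := by ring
    · intro C hC l hl
      refine (index_le hC hl).trans ?_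
      rw [hn]
      calc 4 * (16900 * q) ^ 8 ≤ 120 * (16900 * q) ^ 12 := by
            gcongr <;> omega
        _ = _ := by ring
    · obtain ⟨R, hR, hs⟩ := cp_upper (n := 16900 * q - 1) (by omega)
      refine ⟨R, hR, hs.trans ?_⟩
      rw [hn, mul_pow]
      exact le_of_eq (by ring)
    · exact complete _ _ le_rfl (uns_Fml (by omega))
    · intro Q hQ
      exact lower_bound hq hn hQ
  obtain ⟨c, hc, hmain⟩ := main
  refine ⟨⟨c, hmain⟩, ?_⟩
  rintro ⟨p, hp⟩
  set A := ∑ i ∈ Finset.range (p.natDegree + 1), p.coeff i with hA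
  obtain ⟨q, hq, hlt⟩ := exists_exp_gt (A * c ^ p.natDegree) (12 * p.natDegree)
  obtain ⟨Γ, _, _, ⟨R, hR, hRs⟩, _, hlow⟩ := hmain q hq
  obtain ⟨Q, hQ, hQs⟩ := hp Γ R hR
  have h1 := hlow Q hQ
  have h2 := length_le_gSize Q
  have hmono : p.eval (cpSize R) ≤ p.eval (c * q ^ 12) := by
    rw [Polynomial.eval_eq_sum_range, Polynomial.eval_eq_sum_range]
    apply Finset.sum_le_sum
    intro i _
    exact Nat.mul_le_mul_left _ (Nat.pow_le_pow_left hRs _)
  have hx : 1 ≤ c * q ^ 12 := Nat.one_le_iff_ne_zero.2 (by positivity)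
  have h3 := eval_le p (c * q ^ 12) hx
  have h4 : A * (c * q ^ 12) ^ p.natDegree = A * c ^ p.natDegree * q ^ (12 * p.natDegree) := by
    rw [mul_pow, ← pow_mul]; ring
  rw [← hA, h4] at h3
  omega


end Pool.Agent.Results.MP_612f08_lc.CPSeparation
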